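import Pool.Agent.Helper92.LW.Nd
import Pool.Agent.Helper77.LW.Law5

/-!
# LW: the exact order of all moments
-/

open MeasureTheory Real Set Filter Topology

set_option autoImplicit false

namespace Pool.Agent.Helper92.LW

open Pool.Agent.Helper22.AE
open Pool.Agent.Helper22.AC (cntc)

/-- the limit law, not degenerate -/
theorem PM2.law {H : ℝ → ℝ} (hP : PM2 H) (hH : ContDiff ℝ 2 H) (hp : Function.Periodic H (2 * π)) :
    ∃ ν : Measure ℝ, IsProbabilityMeasure ν ∧ 0 < ∫ y, y ^ 2 ∂ν ∧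
      ∀ φ : ℝ → ℝ, Continuous φ → ∀ (A : ℝ) (q : ℕ), (∀ y, |φ y| ≤ A * (1 + |y|) ^ q) →
      Integrable φ ν ∧ ∀ ε : ℝ, 0 < ε → ∃ X₀ : ℝ, 1 ≤ X₀ ∧ ∀ X : ℝ, X₀ ≤ X → ∀ c : ℝ × ℝ,
        |X⁻¹ * (∫ R in Icc X (2 * X), φ ((cntc H c R - area H * R ^ 2) / sqrt R)) - ∫ y, φ y ∂ν| ≤ ε := by
  obtain ⟨ν, h1, h3⟩ := Pool.Agent.Helper77.LW.exists_law hH hp (fun φ hφ A q hg => hP.1.lim hH hp hφ hg)
  refine ⟨ν, h1, ?_, h3⟩
  obtain ⟨n, X₀, h4⟩ := hP.2
  obtain ⟨_, h5⟩ := h3 (fun y => y ^ 2) (continuous_pow 2) 1 2 (fun y => by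
    rw [one_mul, abs_pow]
    exact pow_le_pow_left₀ (abs_nonneg _) (by linarith [abs_nonneg y]) 2)
  have hn : (0 : ℝ) < 1 / ((n : ℝ) + 1) := by positivity
  obtain ⟨X₁, hX₁, h6⟩ := h5 (1 / ((n : ℝ) + 1) / 2) (half_pos hn)
  obtain ⟨N, hN⟩ := exists_nat_ge X₁
  have h7 := h4 ((X₀ : ℚ) + 1 + N) (by
    have : (0 : ℚ) ≤ (N : ℚ) := Nat.cast_nonneg N
    linarith)
  have h8 := h6 ((((X₀ : ℚ) + 1 + N : ℚ) : ℝ)) (by
    push_cast
    have : (0 : ℝ) ≤ (X₀ : ℝ) := Nat.cast_nonneg _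
    linarith) (((0 : ℚ) : ℝ), ((0 : ℚ) : ℝ))
  have h9 := (abs_le.1 h8).2
  linarith

/-- the lower bound for the moment of every real order, uniform in the centre -/
theorem PM2.lower {H : ℝ → ℝ} (hP : PM2 H) (hH : ContDiff ℝ 2 H) (hp : Function.Periodic H (2 * π)) {p : ℝ} (hp0 : 0 < p) :
    ∃ b X₀ : ℝ, 0 < b ∧ 1 ≤ X₀ ∧ ∀ X : ℝ, X₀ ≤ X → ∀ c : ℝ × ℝ,
      ENNReal.ofReal (b * X ^ (1 + p / 2)) ≤ ∫⁻ R in Icc X (2 * X), ENNReal.ofReal (|cntc H c R - area H * R ^ 2| ^ p) := by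
  obtain ⟨ν, hν, hy2, h3⟩ := hP.law hH hp
  have hφ : Continuous (fun y : ℝ => |y| ^ p) := continuous_abs.rpow_const fun _ => Or.inr hp0.le
  obtain ⟨q, hq⟩ := exists_nat_ge p
  obtain ⟨hi, h4⟩ := h3 (fun y => |y| ^ p) hφ 1 q (fun y => by
    rw [one_mul, abs_of_nonneg (Real.rpow_nonneg (abs_nonneg _) _), ← Real.rpow_natCast]
    have h0 := abs_nonneg y
    exact (Real.rpow_le_rpow h0 (by linarith) hp0.le).trans (Real.rpow_le_rpow_of_exponent_le (by linarith) hq))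
  have hm : 0 < ∫ y, |y| ^ p ∂ν := by
    rcases lt_or_eq_of_le (integral_nonneg (μ := ν) (f := fun y : ℝ => |y| ^ p) fun y => Real.rpow_nonneg (abs_nonneg _) _) with h | h
    · exact h
    · exfalso
      have h5 := (integral_eq_zero_iff_of_nonneg (fun y => Real.rpow_nonneg (abs_nonneg _) _) hi).1 h.symm
      have h6 : (fun y : ℝ => y ^ 2) =ᵐ[ν] fun _ => 0 := by
        filter_upwards [h5] with y hy
        have h7 : |y| ^ p = 0 := hy
        have h8 : |y| = 0 := by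
          by_contra hne
          exact (Real.rpow_pos_of_pos (lt_of_le_of_ne (abs_nonneg _) (Ne.symm hne)) p).ne' h7
        show y ^ 2 = 0
        rw [abs_eq_zero.1 h8]
        norm_num
      rw [integral_congr_ae h6, integral_zero] at hy2
      exact lt_irrefl _ hy2
  obtain ⟨m, hmdef⟩ : ∃ m : ℝ, m = ∫ y, |y| ^ p ∂ν := ⟨_, rfl⟩
  rw [← hmdef] at hm h4
  obtain ⟨X₀, hX₀, h5⟩ := h4 (m / 2) (half_pos hm)
  refine ⟨m / 2, X₀, half_pos hm, hX₀, fun X hX c => ?_⟩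
  have hX1 : 1 ≤ X := hX₀.trans hX
  have hX0 : 0 < X := by linarith
  have hc := hH.continuous
  have bu := u_bm hc hp c hX1
  have bE : BM X (fun R => cntc H c R - area H * R ^ 2) := (cntc_bm hc hp c hX1).sub (BM.cont (by fun_prop))
  have bEp : BM X (fun R => |cntc H c R - area H * R ^ 2| ^ p) := bE.comp hφ
  have bup : BM X (fun R => |(cntc H c R - area H * R ^ 2) / sqrt R| ^ p) := bu.comp hφ
  have h6 := (abs_le.1 (h5 X hX c)).1
  have h7 : X⁻¹ * (∫ R in Icc X (2 * X), |(cntc H c R - area H * R ^ 2) / sqrt R| ^ p) ≤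
      X⁻¹ * ∫ R in Icc X (2 * X), X ^ (-(p / 2)) * |cntc H c R - area H * R ^ 2| ^ p := by
    refine mean_mono hX1 bup ((BM.cont (X := X) (f := fun _ => X ^ (-(p / 2))) continuousOn_const).mul bEp) fun R hR => ?_
    have hR0 : 0 < R := by linarith [hR.1]
    have hs : 0 < sqrt R := Real.sqrt_pos.2 hR0
    rw [abs_div, abs_of_pos hs, Real.div_rpow (abs_nonneg _) hs.le, Real.sqrt_eq_rpow, ← Real.rpow_mul hR0.le, div_eq_mul_inv, mul_comm]
    refine mul_le_mul_of_nonneg_right ?_ (Real.rpow_nonneg (abs_nonneg _) _)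
    rw [← Real.rpow_neg hR0.le]
    have e : -(1 / 2 * p) = -(p / 2) := by ring
    rw [e]
    exact Real.rpow_le_rpow_of_nonpos hX0 hR.1 (by linarith)
  rw [integral_const_mul] at h7
  have h8 : m / 2 ≤ X⁻¹ * (X ^ (-(p / 2)) * ∫ R in Icc X (2 * X), |cntc H c R - area H * R ^ 2| ^ p) := by linarith
  have h9 : m / 2 * X ^ (1 + p / 2) ≤ ∫ R in Icc X (2 * X), |cntc H c R - area H * R ^ 2| ^ p := by
    have e1 : X⁻¹ * (X ^ (-(p / 2)) * ∫ R in Icc X (2 * X), |cntc H c R - area H * R ^ 2| ^ p) * X ^ (1 + p / 2) =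
        ∫ R in Icc X (2 * X), |cntc H c R - area H * R ^ 2| ^ p := by
      have e2 : X⁻¹ * X ^ (-(p / 2)) * X ^ (1 + p / 2) = 1 := by
        rw [← Real.rpow_neg_one, ← Real.rpow_add hX0, ← Real.rpow_add hX0]
        have : (-1 + -(p / 2) + (1 + p / 2) : ℝ) = 0 := by ring
        rw [this, Real.rpow_zero]
      calc _ = (X⁻¹ * X ^ (-(p / 2)) * X ^ (1 + p / 2)) * ∫ R in Icc X (2 * X), |cntc H c R - area H * R ^ 2| ^ p := by ring
        _ = _ := by rw [e2, one_mul]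
    rw [← e1]
    exact mul_le_mul_of_nonneg_right h8 (by positivity)
  rw [← ofReal_integral_eq_lintegral_ofReal bEp.int (Eventually.of_forall fun R => Real.rpow_nonneg (abs_nonneg _) _)]
  exact ENNReal.ofReal_le_ofReal h9

end Pool.Agent.Helper92.LW
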