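import Pool.Agent.Helper92.LW.Exact
import Pool.Agent.Helper60.MM.M8
import Pool.Agent.Helper11.AD.Small

/-!
# LW: the asymptotic formula for the moments (over the summation lemma)
-/

open MeasureTheory Real Set Filter Topology

set_option autoImplicit false

namespace Pool.Agent.Helper92.LW

open Pool.Agent.Helper22.AE
open Pool.Agent.Helper22.AC (cntc)
open Pool.Agent.Helper60.MM (cntc_radius_meas)
open Pool.Agent.Helper11.AD (small_rad)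

/-- the normalised error -/
noncomputable def Fa (H : ℝ → ℝ) (p : ℝ) (a : ℝ × ℝ) (R : ℝ) : ℝ := |(cntc H a R - area H * R ^ 2) / sqrt R| ^ p

theorem Fa_nonneg (H : ℝ → ℝ) (p : ℝ) (a : ℝ × ℝ) (R : ℝ) : 0 ≤ Fa H p a R := Real.rpow_nonneg (abs_nonneg _) _

theorem Fa_meas (H : ℝ → ℝ) {p : ℝ} (hp0 : 0 < p) (a : ℝ × ℝ) : Measurable (Fa H p a) := by
  have hφ : Continuous (fun y : ℝ => |y| ^ p) := continuous_abs.rpow_const fun _ => Or.inr hp0.le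
  have h1 : Measurable fun R : ℝ => (cntc H a R - area H * R ^ 2) / sqrt R :=
    ((cntc_radius_meas H a).sub (by fun_prop)).div (by fun_prop)
  exact hφ.measurable.comp h1

/-- crude bound, uniform in the centre -/
theorem Fa_bd (H : ℝ → ℝ) {p : ℝ} (hp0 : 0 < p) (Y : ℝ) : ∃ C : ℝ, 0 < C ∧ ∀ (a : ℝ × ℝ), ∀ R ∈ Icc 1 Y, Fa H p a R ≤ C := by
  obtain ⟨C, hC, h⟩ := small_rad H Y
  refine ⟨C ^ p, Real.rpow_pos_of_pos hC p, fun a R hR => ?_⟩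
  unfold Fa
  refine Real.rpow_le_rpow (abs_nonneg _) ?_ hp0.le
  have hs : 1 ≤ sqrt R := Real.one_le_sqrt.2 hR.1
  have hs0 : 0 ≤ sqrt R := by linarith
  rw [abs_div, abs_of_nonneg hs0]
  exact (div_le_self (abs_nonneg _) hs).trans (h R hR.1 hR.2 a)

theorem Fa_int (H : ℝ → ℝ) {p : ℝ} (hp0 : 0 < p) (a : ℝ × ℝ) (X : ℝ) : IntegrableOn (Fa H p a) (Icc 1 X) := by
  obtain ⟨C, hC, h⟩ := Fa_bd H hp0 X
  have : IsFiniteMeasure (volume.restrict (Icc 1 X)) := ⟨by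
    rw [Measure.restrict_apply_univ]
    exact measure_Icc_lt_top⟩
  refine Integrable.of_bound (Fa_meas H hp0 a).aestronglyMeasurable C ?_
  rw [ae_restrict_iff' measurableSet_Icc]
  exact Eventually.of_forall fun R hR => by
    rw [Real.norm_eq_abs, abs_of_nonneg (Fa_nonneg _ _ _ _)]
    exact h a R hR

theorem Fa_hb (H : ℝ → ℝ) {p : ℝ} (hp0 : 0 < p) (Y : ℝ) : ∃ B : ℝ, ∀ a : ℝ × ℝ, ∫ R in Icc 1 Y, Fa H p a R ≤ B := by
  obtain ⟨C, hC, h⟩ := Fa_bd H hp0 Y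
  refine ⟨∫ _ in Icc 1 Y, C, fun a => ?_⟩
  exact setIntegral_mono_on (Fa_int H hp0 a Y) (integrableOn_const measure_Icc_lt_top.ne) measurableSet_Icc fun R hR => h a R hR

/-- the moment as a weighted integral of the normalised error -/
theorem Fa_eq (H : ℝ → ℝ) {p : ℝ} (a : ℝ × ℝ) (X : ℝ) :
    ∫ R in Icc 1 X, |cntc H a R - area H * R ^ 2| ^ p = ∫ R in Icc 1 X, R ^ (p / 2) * Fa H p a R := by
  refine setIntegral_congr_fun measurableSet_Icc fun R hR => ?_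
  have hR0 : 0 < R := by linarith [hR.1]
  have hs : 0 < sqrt R := Real.sqrt_pos.2 hR0
  simp only [Fa]
  have e : R ^ (p / 2) = sqrt R ^ p := by
    rw [Real.sqrt_eq_rpow, ← Real.rpow_mul hR0.le]
    congr 1
    ring
  rw [e, ← Real.mul_rpow hs.le (abs_nonneg _), abs_div, abs_of_pos hs, mul_div_cancel₀ _ hs.ne']

/-- the mean value over the dyadic intervals -/
theorem PM2.mean {H : ℝ → ℝ} (hP : PM2 H) (hH : ContDiff ℝ 2 H) (hp : Function.Periodic H (2 * π)) {p : ℝ} (hp0 : 0 < p) :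
    ∃ m : ℝ, 0 < m ∧ ∀ d : ℝ, 0 < d → ∃ X₀ : ℝ, 1 ≤ X₀ ∧ ∀ X : ℝ, X₀ ≤ X → ∀ a : ℝ × ℝ,
      |X⁻¹ * (∫ R in Icc X (2 * X), Fa H p a R) - m| ≤ d := by
  obtain ⟨ν, hν, hy2, h3⟩ := hP.law hH hp
  have hφ : Continuous (fun y : ℝ => |y| ^ p) := continuous_abs.rpow_const fun _ => Or.inr hp0.le
  obtain ⟨q, hq⟩ := exists_nat_ge p
  obtain ⟨hi, h4⟩ := h3 (fun y => |y| ^ p) hφ 1 q (fun y => by
    rw [one_mul, abs_of_nonneg (Real.rpow_nonneg (abs_nonneg _) _), ← Real.rpow_natCast]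
    have h0 := abs_nonneg y
    exact (Real.rpow_le_rpow h0 (by linarith) hp0.le).trans (Real.rpow_le_rpow_of_exponent_le (by linarith) hq))
  have hm : 0 < ∫ y, |y| ^ p ∂ν := by
    rcases lt_or_eq_of_le (integral_nonneg (μ := ν) (f := fun y : ℝ => |y| ^ p) fun y => Real.rpow_nonneg (abs_nonneg _) _) with h | h
    · exact h
    · exfalso
      have h5 := (integral_eq_zero_iff_of_nonneg (fun y => Real.rpow_nonneg (abs_nonneg _) _) hi).1 h.symm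
      have h6 : (fun y : ℝ => y ^ 2) =ᵐ[ν] fun _ => 0 := by
        filter_upwards [h5] with y hy
        have h7 : |y| ^ p = 0 := hy
        have h8 : |y| = 0 := by
          by_contra hne
          exact (Real.rpow_pos_of_pos (lt_of_le_of_ne (abs_nonneg _) (Ne.symm hne)) p).ne' h7
        show y ^ 2 = 0
        rw [abs_eq_zero.1 h8]
        norm_num
      rw [integral_congr_ae h6, integral_zero] at hy2
      exact lt_irrefl _ hy2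
  exact ⟨_, hm, h4⟩

/-- the asymptotic formula, over the summation lemma -/
theorem PM2.asymp_of {H : ℝ → ℝ} (hP : PM2 H) (hH : ContDiff ℝ 2 H) (hp : Function.Periodic H (2 * π)) {p : ℝ} (hp0 : 0 < p)
    (habel : ∀ {F : ℝ × ℝ → ℝ → ℝ}, (∀ a R, 0 ≤ F a R) → (∀ a X, IntegrableOn (F a) (Icc 1 X)) → ∀ {m : ℝ},
      (∀ d : ℝ, 0 < d → ∃ X0 : ℝ, 1 ≤ X0 ∧ ∀ X : ℝ, X0 ≤ X → ∀ a, |X⁻¹ * (∫ R in Icc X (2*X), F a R) - m| ≤ d) →
      (∀ Y : ℝ, ∃ B : ℝ, ∀ a, ∫ R in Icc 1 Y, F a R ≤ B) → ∀ {q : ℝ}, 0 ≤ q →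
      ∀ d : ℝ, 0 < d → ∃ X0 : ℝ, 1 ≤ X0 ∧ ∀ X : ℝ, X0 ≤ X → ∀ a, |(∫ R in Icc 1 X, R ^ q * F a R) / X ^ (1 + q) - m / (1 + q)| ≤ d) :
    ∃ M : ℝ, 0 < M ∧ ∀ d : ℝ, 0 < d → ∃ X₀ : ℝ, 1 ≤ X₀ ∧ ∀ X : ℝ, X₀ ≤ X → ∀ a : ℝ × ℝ,
      |(∫ R in Icc 1 X, |cntc H a R - area H * R ^ 2| ^ p) / X ^ (1 + p / 2) - M| ≤ d := by
  obtain ⟨m, hm, h1⟩ := hP.mean hH hp hp0
  refine ⟨m / (1 + p / 2), by positivity, fun d hd => ?_⟩
  obtain ⟨X₀, hX₀, h2⟩ := habel (F := Fa H p) (Fa_nonneg H p) (fun a X => Fa_int H hp0 a X) h1 (fun Y => Fa_hb H hp0 Y)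
    (q := p / 2) (by positivity) d hd
  refine ⟨X₀, hX₀, fun X hX a => ?_⟩
  rw [Fa_eq]
  exact h2 X hX a

end Pool.Agent.Helper92.LW
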