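import Pool.Agent.Helper92.LW.AsyD
import Pool.Agent.Helper81.MM.Abel

/-!
# LW: the asymptotic formula for all moments, uniform in the centre
-/

open MeasureTheory Real Set Filter Topology

set_option autoImplicit false

namespace Pool.Agent.Helper92.LW

open Pool.Agent.Helper22.AE
open Pool.Agent.Helper22.AC (cntc)

/-- the asymptotic formula for the moment of every real order `p > 0`: the same constant for all centres, uniformly in the centre -/
theorem PM2.asymp {H : ℝ → ℝ} (hP : PM2 H) (hH : ContDiff ℝ 2 H) (hp : Function.Periodic H (2 * π)) {p : ℝ} (hp0 : 0 < p) :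
    ∃ M : ℝ, 0 < M ∧ ∀ d : ℝ, 0 < d → ∃ X₀ : ℝ, 1 ≤ X₀ ∧ ∀ X : ℝ, X₀ ≤ X → ∀ a : ℝ × ℝ,
      |(∫ R in Icc 1 X, |cntc H a R - area H * R ^ 2| ^ p) / X ^ (1 + p / 2) - M| ≤ d := by
  refine hP.asymp_of hH hp hp0 ?_
  intro F h0 hi m hm hb q hq
  exact Pool.Agent.Helper81.MM.abel_mean h0 hi hm hb hq

end Pool.Agent.Helper92.LW
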