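import Pool.Agent.Helper92.LW.Tools

/-!
# LW-W1: the limit law
-/

open MeasureTheory Real Set Filter Topology

set_option autoImplicit false

namespace Pool.Agent.Helper92.LW

open Pool.Agent.Helper22.AE
open Pool.Agent.Helper22.AC (cntc)
open Pool.Agent.Helper93.EX (Mx)

/-- convergence of the means of the polynomials of the main sum -/
private lemma poly_lim {H : ℝ → ℝ}
    (hmean : ∀ N p : ℕ, ∃ m : ℝ, ∀ ε : ℝ, 0 < ε → ∃ X₀ : ℝ, 1 ≤ X₀ ∧ ∀ X : ℝ, X₀ ≤ X → ∀ c : ℝ × ℝ,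
      |X⁻¹ * (∫ R in Icc X (2 * X), Mx H N R c ^ p) - m| ≤ ε) (N : ℕ) (P : Polynomial ℝ) :
    ∃ m : ℝ, ∀ ε : ℝ, 0 < ε → ∃ X₀ : ℝ, 1 ≤ X₀ ∧ ∀ X : ℝ, X₀ ≤ X → ∀ c : ℝ × ℝ,
      |X⁻¹ * (∫ R in Icc X (2 * X), P.eval (Mx H N R c)) - m| ≤ ε := by
  induction P using Polynomial.induction_on' with
  | add p q hp hq =>
    obtain ⟨m1, h1⟩ := hp
    obtain ⟨m2, h2⟩ := hq
    refine ⟨m1 + m2, fun ε hε => ?_⟩
    obtain ⟨X1, hX1, h1⟩ := h1 (ε / 2) (half_pos hε)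
    obtain ⟨X2, hX2, h2⟩ := h2 (ε / 2) (half_pos hε)
    refine ⟨max X1 X2, hX1.trans (le_max_left _ _), fun X hX c => ?_⟩
    have a1 := h1 X ((le_max_left _ _).trans hX) c
    have a2 := h2 X ((le_max_right _ _).trans hX) c
    have bv : BM X (fun R => Mx H N R c) := BM.cont (Mx_cont H _ c).continuousOn
    have b1 : BM X (fun R => p.eval (Mx H N R c)) := bv.comp p.continuous
    have b2 : BM X (fun R => q.eval (Mx H N R c)) := bv.comp q.continuous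
    have e : ∫ R in Icc X (2 * X), (p + q).eval (Mx H N R c) =
        (∫ R in Icc X (2 * X), p.eval (Mx H N R c)) + ∫ R in Icc X (2 * X), q.eval (Mx H N R c) := by
      rw [← integral_add b1.int b2.int]
      simp only [Polynomial.eval_add]
    rw [e]
    have e2 : X⁻¹ * ((∫ R in Icc X (2 * X), p.eval (Mx H N R c)) + ∫ R in Icc X (2 * X), q.eval (Mx H N R c)) - (m1 + m2) =
        (X⁻¹ * (∫ R in Icc X (2 * X), p.eval (Mx H N R c)) - m1) + (X⁻¹ * (∫ R in Icc X (2 * X), q.eval (Mx H N R c)) - m2) := by ring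
    rw [e2]
    refine (abs_add_le _ _).trans ?_
    linarith
  | monomial n a =>
    obtain ⟨m, h⟩ := hmean N n
    refine ⟨a * m, fun ε hε => ?_⟩
    obtain ⟨X₀, hX₀, h⟩ := h (ε / (|a| + 1)) (by positivity)
    refine ⟨X₀, hX₀, fun X hX c => ?_⟩
    have h1 := h X hX c
    have e : ∫ R in Icc X (2 * X), (Polynomial.monomial n a).eval (Mx H N R c) = a * ∫ R in Icc X (2 * X), Mx H N R c ^ n := by
      rw [← integral_const_mul]
      simp only [Polynomial.eval_monomial]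
    rw [e]
    have e2 : X⁻¹ * (a * ∫ R in Icc X (2 * X), Mx H N R c ^ n) - a * m = a * (X⁻¹ * (∫ R in Icc X (2 * X), Mx H N R c ^ n) - m) := by ring
    rw [e2, abs_mul]
    calc |a| * |X⁻¹ * (∫ R in Icc X (2 * X), Mx H N R c ^ n) - m| ≤ |a| * (ε / (|a| + 1)) := mul_le_mul_of_nonneg_left h1 (abs_nonneg _)
      _ ≤ ε := by
          rw [mul_div_assoc', div_le_iff₀ (by positivity)]
          nlinarith [abs_nonneg a]

/-- the means of every continuous function of the main sum converge -/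
private lemma phi_lim {H : ℝ → ℝ}
    (hmean : ∀ N p : ℕ, ∃ m : ℝ, ∀ ε : ℝ, 0 < ε → ∃ X₀ : ℝ, 1 ≤ X₀ ∧ ∀ X : ℝ, X₀ ≤ X → ∀ c : ℝ × ℝ,
      |X⁻¹ * (∫ R in Icc X (2 * X), Mx H N R c ^ p) - m| ≤ ε) (N : ℕ) {φ : ℝ → ℝ} (hφ : Continuous φ) :
    ∃ m : ℝ, ∀ ε : ℝ, 0 < ε → ∃ X₀ : ℝ, 1 ≤ X₀ ∧ ∀ X : ℝ, X₀ ≤ X → ∀ c : ℝ × ℝ,
      |X⁻¹ * (∫ R in Icc X (2 * X), φ (Mx H N R c)) - m| ≤ ε := by
  refine lim_of_approx fun ε hε => ?_
  obtain ⟨B, hB0, hB⟩ := Mx_bd H N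
  obtain ⟨P, hP⟩ := exists_polynomial_near_of_continuousOn (-B) B φ hφ.continuousOn (ε / 2) (half_pos hε)
  obtain ⟨m, hm⟩ := poly_lim hmean N P
  obtain ⟨X₀, hX₀, h1⟩ := hm (ε / 2) (half_pos hε)
  refine ⟨m, X₀, hX₀, fun X hX c => ?_⟩
  have hX1 : 1 ≤ X := hX₀.trans hX
  have bv : BM X (fun R => Mx H N R c) := BM.cont (Mx_cont H _ c).continuousOn
  have b1 : BM X (fun R => P.eval (Mx H N R c)) := bv.comp P.continuous
  have b2 : BM X (fun R => φ (Mx H N R c)) := bv.comp hφ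
  have h2 := mean_diff hX1 b2 b1
  have h3 : X⁻¹ * ∫ R in Icc X (2 * X), |φ (Mx H N R c) - P.eval (Mx H N R c)| ≤ ε / 2 := by
    refine (mean_mono hX1 (b2.sub b1).abs (BM.cont continuousOn_const) (G := fun _ => ε / 2) fun R _ => ?_).trans (mean_const hX1 _).le
    have h4 := hP (Mx H N R c) (abs_le.1 (hB R c))
    rw [abs_sub_comm]
    exact h4.le
  have h5 := h1 X hX c
  have e : X⁻¹ * (∫ R in Icc X (2 * X), φ (Mx H N R c)) - m =
      (X⁻¹ * (∫ R in Icc X (2 * X), φ (Mx H N R c)) - X⁻¹ * (∫ R in Icc X (2 * X), P.eval (Mx H N R c))) +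
      (X⁻¹ * (∫ R in Icc X (2 * X), P.eval (Mx H N R c)) - m) := by ring
  rw [e]
  refine (abs_add_le _ _).trans ?_
  linarith

theorem law_of {H : ℝ → ℝ} (hH : ContDiff ℝ 2 H) (hp : Function.Periodic H (2 * π))
    (htail : ∀ η : ℝ, 0 < η → ∃ (n0 : ℕ) (X₀ : ℝ), 1 ≤ X₀ ∧ ∀ X : ℝ, X₀ ≤ X → ∀ c : ℝ × ℝ,
      ∫ R in Icc X (2 * X), |cntc H c R - area H * R ^ 2 - sqrt R * Mx H (2 ^ n0) R c| ^ 2 ≤ η * X ^ 2)
    (hmean : ∀ N p : ℕ, ∃ m : ℝ, ∀ ε : ℝ, 0 < ε → ∃ X₀ : ℝ, 1 ≤ X₀ ∧ ∀ X : ℝ, X₀ ≤ X → ∀ c : ℝ × ℝ,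
      |X⁻¹ * (∫ R in Icc X (2 * X), Mx H N R c ^ p) - m| ≤ ε) {φ : ℝ → ℝ} (hφ : Continuous φ) (hc : HasCompactSupport φ) :
    LimF H φ := by
  have hcn := hH.continuous
  obtain ⟨B, hB⟩ := hc.exists_bound_of_continuous hφ
  have hB0 : 0 ≤ B := (norm_nonneg _).trans (hB 0)
  have hu := hc.uniformContinuous_of_continuous hφ
  refine lim_of_approx fun ε hε => ?_
  rw [Metric.uniformContinuous_iff] at hu
  obtain ⟨δ, hδ, hu⟩ := hu (ε / 3) (by positivity)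
  set η : ℝ := ε * δ ^ 2 / (3 * (2 * B + 1)) with hη
  have hη0 : 0 < η := by positivity
  obtain ⟨n0, X₁, hX₁, h1⟩ := htail η hη0
  obtain ⟨m, hm⟩ := phi_lim hmean (2 ^ n0) hφ
  obtain ⟨X₂, hX₂, h2⟩ := hm (ε / 3) (by positivity)
  refine ⟨m, max X₁ X₂, hX₁.trans (le_max_left _ _), fun X hX c => ?_⟩
  have hXa : X₁ ≤ X := (le_max_left _ _).trans hX
  have hXb : X₂ ≤ X := (le_max_right _ _).trans hX
  have hX1 : 1 ≤ X := hX₁.trans hXa
  have m1 := tail_mean hcn hp c hX1 (2 ^ n0) 1 (η := η) (by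
    have := h1 X hXa c
    simpa only [mul_one] using this)
  have bu := u_bm hcn hp c hX1
  have bv : BM X (fun R => Mx H (2 ^ n0) R c) := BM.cont (Mx_cont H _ c).continuousOn
  have b1 := bu.comp hφ
  have b2 := bv.comp hφ
  have h3 := mean_diff hX1 b1 b2
  have b3 : BM X (fun R => |(cntc H c R - area H * R ^ 2) / sqrt R - Mx H (2 ^ n0) R c| ^ (2 * 1)) := (bu.sub bv).abs.pow _
  have h4 := mean3 hX1 (b1.sub b2).abs b3 (BM.cont (X := X) (f := fun _ => (0 : ℝ)) continuousOn_const) (a := ε / 3)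
    (b := 2 * B / δ ^ 2) (c := 0) (e1 := η) (e2 := 0) (by positivity) le_rfl (fun R _ => by
      set y := (cntc H c R - area H * R ^ 2) / sqrt R with hy
      set z := Mx H (2 ^ n0) R c with hz
      have a1 := hB y
      have a2 := hB z
      rw [Real.norm_eq_abs] at a1 a2
      have hq : 0 ≤ 2 * B / δ ^ 2 * |y - z| ^ (2 * 1) := by positivity
      rcases lt_or_ge (dist y z) δ with hd | hd
      · have := hu hd
        rw [Real.dist_eq] at this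
        linarith
      · rw [Real.dist_eq] at hd
        have a3 : |φ y - φ z| ≤ 2 * B := by
          have := abs_sub (φ y) (φ z)
          linarith
        have a4 : δ ^ 2 ≤ |y - z| ^ (2 * 1) := by
          rw [mul_one]
          exact pow_le_pow_left₀ hδ.le hd 2
        have a5 : 2 * B ≤ 2 * B / δ ^ 2 * |y - z| ^ (2 * 1) := by
          rw [div_mul_eq_mul_div, le_div_iff₀ (by positivity)]
          exact mul_le_mul_of_nonneg_left a4 (by positivity)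
        linarith) m1 (by rw [mean_const hX1])
  have h5 : 2 * B / δ ^ 2 * η ≤ ε / 3 := by
    rw [hη]
    have e : 2 * B / δ ^ 2 * (ε * δ ^ 2 / (3 * (2 * B + 1))) = ε / 3 * (2 * B / (2 * B + 1)) := by
      field_simp
    rw [e]
    refine mul_le_of_le_one_right (by positivity) ?_
    rw [div_le_one (by positivity)]
    linarith
  have h6 := h2 X hXb c
  have e : X⁻¹ * (∫ R in Icc X (2 * X), φ ((cntc H c R - area H * R ^ 2) / sqrt R)) - m =
      (X⁻¹ * (∫ R in Icc X (2 * X), φ ((cntc H c R - area H * R ^ 2) / sqrt R)) - X⁻¹ * (∫ R in Icc X (2 * X), φ (Mx H (2 ^ n0) R c))) +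
      (X⁻¹ * (∫ R in Icc X (2 * X), φ (Mx H (2 ^ n0) R c)) - m) := by ring
  rw [e]
  refine (abs_add_le _ _).trans ?_
  have h7 := h3.trans h4
  linarith

end Pool.Agent.Helper92.LW
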