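import Pool.Agent.Helper92.LW.Defs

/-!
# LW: tools (the public copies of the private lemmas of Helper10/AM/C5)
-/

open MeasureTheory Real Set Filter Topology

set_option autoImplicit false
set_option linter.unusedVariables false

namespace Pool.Agent.Helper92.LW

open Pool.Agent.Helper22.AE
open Pool.Agent.Helper22.AC (cntc)
open Pool.Agent.Helper93.EX (Mx ak prim sn fJ)

/-- bounded and measurable on `[X, 2 X]` -/
def BM (X : ℝ) (f : ℝ → ℝ) : Prop :=
  AEMeasurable f (volume.restrict (Icc X (2 * X))) ∧ ∃ B : ℝ, ∀ R ∈ Icc X (2 * X), |f R| ≤ B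

theorem BM.int {X : ℝ} {f : ℝ → ℝ} (h : BM X f) : IntegrableOn f (Icc X (2 * X)) := by
  obtain ⟨h1, B, hB⟩ := h
  have : IsFiniteMeasure (volume.restrict (Icc X (2 * X))) := ⟨by
    rw [Measure.restrict_apply_univ]
    exact measure_Icc_lt_top⟩
  refine Integrable.of_bound h1.aestronglyMeasurable B ?_
  rw [ae_restrict_iff' measurableSet_Icc]
  exact Eventually.of_forall fun R hR => by
    rw [Real.norm_eq_abs]
    exact hB R hR

theorem BM.sub {X : ℝ} {f g : ℝ → ℝ} (hf : BM X f) (hg : BM X g) : BM X (fun R => f R - g R) := by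
  obtain ⟨h1, B, hB⟩ := hf
  obtain ⟨h2, B', hB'⟩ := hg
  exact ⟨h1.sub h2, B + B', fun R hR => (abs_sub _ _).trans (add_le_add (hB R hR) (hB' R hR))⟩

theorem BM.mul {X : ℝ} {f g : ℝ → ℝ} (hf : BM X f) (hg : BM X g) : BM X (fun R => f R * g R) := by
  obtain ⟨h1, B, hB⟩ := hf
  obtain ⟨h2, B', hB'⟩ := hg
  refine ⟨h1.mul h2, B * B', fun R hR => ?_⟩
  rw [abs_mul]
  exact mul_le_mul (hB R hR) (hB' R hR) (abs_nonneg _) ((abs_nonneg _).trans (hB R hR))

theorem BM.pow {X : ℝ} {f : ℝ → ℝ} (hf : BM X f) (n : ℕ) : BM X (fun R => f R ^ n) := by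
  obtain ⟨h1, B, hB⟩ := hf
  refine ⟨h1.pow_const n, B ^ n, fun R hR => ?_⟩
  rw [abs_pow]
  exact pow_le_pow_left₀ (abs_nonneg _) (hB R hR) n

theorem BM.abs {X : ℝ} {f : ℝ → ℝ} (hf : BM X f) : BM X (fun R => |f R|) := by
  obtain ⟨h1, B, hB⟩ := hf
  refine ⟨h1.abs, B, fun R hR => ?_⟩
  rw [abs_abs]
  exact hB R hR

theorem BM.cont {X : ℝ} {f : ℝ → ℝ} (hf : ContinuousOn f (Icc X (2 * X))) : BM X f := by
  refine ⟨(hf.aemeasurable measurableSet_Icc), ?_⟩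
  obtain ⟨C, hC⟩ := isCompact_Icc.exists_bound_of_continuousOn hf
  exact ⟨C, fun R hR => by simpa [Real.norm_eq_abs] using hC R hR⟩

theorem box_of {G : ℝ → ℝ} {N : ℕ} (hG : ∀ θ, |G θ| ≤ N) {k : ℤ × ℤ}
    (hk : ∀ θ : ℝ, (k.1 : ℝ) * cos θ + (k.2 : ℝ) * sin θ ≤ G θ) : k ∈ box N := by
  have a1 := (hk 0).trans ((le_abs_self _).trans (hG 0))
  have a2 := (hk π).trans ((le_abs_self _).trans (hG π))
  have a3 := (hk (π / 2)).trans ((le_abs_self _).trans (hG (π / 2)))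
  have a4 := (hk (-(π / 2))).trans ((le_abs_self _).trans (hG (-(π / 2))))
  simp only [cos_zero, sin_zero, mul_one, mul_zero, add_zero, zero_add, cos_pi, sin_pi, cos_pi_div_two,
    sin_pi_div_two, cos_neg, sin_neg, mul_neg] at a1 a2 a3 a4
  simp only [box, Finset.mem_product, Finset.mem_Icc]
  refine ⟨⟨?_, ?_⟩, ?_, ?_⟩
  · have : -(N : ℝ) ≤ (k.1 : ℝ) := by linarith
    exact_mod_cast this
  · exact_mod_cast a1
  · have : -(N : ℝ) ≤ (k.2 : ℝ) := by linarith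
    exact_mod_cast this
  · exact_mod_cast a3

/-- the number of points is bounded and measurable -/
theorem cntc_bm {H : ℝ → ℝ} (hH : Continuous H) (hp : Function.Periodic H (2 * π)) (c : ℝ × ℝ) {X : ℝ}
    (hX : 1 ≤ X) : BM X (fun R => cntc H c R) := by
  classical
  obtain ⟨C, hC⟩ := (isCompact_Icc : IsCompact (Icc (0 : ℝ) (2 * π))).exists_bound_of_continuousOn hH.continuousOn
  have hC' : ∀ θ, |H θ| ≤ C := by
    intro θ
    obtain ⟨y, hy, hy'⟩ := hp.exists_mem_Ico₀ (by positivity) θ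
    rw [hy']
    have := hC y ⟨hy.1, hy.2.le⟩
    rwa [Real.norm_eq_abs] at this
  have hC0 : 0 ≤ C := (abs_nonneg _).trans (hC' 0)
  obtain ⟨N, hN⟩ := exists_nat_ge (2 * X * C + (|c.1| + |c.2|))
  have hb : ∀ R ∈ Icc X (2 * X), ∀ θ, |R * H θ + (c.1 * cos θ + c.2 * sin θ)| ≤ N := by
    intro R hR θ
    refine le_trans ?_ hN
    refine (abs_add_le _ _).trans (add_le_add ?_ ((abs_add_le _ _).trans (add_le_add ?_ ?_)))
    · rw [abs_mul, abs_of_pos (by linarith [hR.1])]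
      exact mul_le_mul hR.2 (hC' θ) (abs_nonneg _) (by linarith)
    · rw [abs_mul]
      exact mul_le_of_le_one_right (abs_nonneg _) (abs_cos_le_one θ)
    · rw [abs_mul]
      exact mul_le_of_le_one_right (abs_nonneg _) (abs_sin_le_one θ)
  have hcnt : ∀ R ∈ Icc X (2 * X), cntc H c R = ∑ k ∈ box N,
      (if (∀ θ : ℝ, ((k.1 : ℝ) - c.1) * cos θ + ((k.2 : ℝ) - c.2) * sin θ ≤ R * H θ) then (1 : ℝ) else 0) := by
    intro R hR
    unfold cntc
    rw [Nat.subtype_card ((box N).filter fun k : ℤ × ℤ =>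
      ∀ θ : ℝ, ((k.1 : ℝ) - c.1) * cos θ + ((k.2 : ℝ) - c.2) * sin θ ≤ R * H θ)]
    · rw [Finset.sum_boole]
    · intro k
      rw [Finset.mem_filter]
      refine ⟨fun h => h.2, fun h => ⟨box_of (G := fun θ => R * H θ + (c.1 * cos θ + c.2 * sin θ)) (hb R hR)
        (fun θ => ?_), h⟩⟩
      have := h θ
      linarith
  have hm : Measurable fun R : ℝ => ∑ k ∈ box N,
      (if (∀ θ : ℝ, ((k.1 : ℝ) - c.1) * cos θ + ((k.2 : ℝ) - c.2) * sin θ ≤ R * H θ) then (1 : ℝ) else 0) := by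
    refine Finset.measurable_sum _ fun k _ => ?_
    refine Measurable.ite ?_ measurable_const measurable_const
    have hc : {R : ℝ | ∀ θ : ℝ, ((k.1 : ℝ) - c.1) * cos θ + ((k.2 : ℝ) - c.2) * sin θ ≤ R * H θ} =
        ⋂ θ : ℝ, {R : ℝ | ((k.1 : ℝ) - c.1) * cos θ + ((k.2 : ℝ) - c.2) * sin θ ≤ R * H θ} := by
      ext x
      simp
    rw [hc]
    exact (isClosed_iInter fun θ => isClosed_le continuous_const (continuous_id.mul continuous_const)).measurableSet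
  constructor
  · refine hm.aemeasurable.congr ?_
    rw [EventuallyEq, ae_restrict_iff' measurableSet_Icc]
    exact Eventually.of_forall fun R hR => (hcnt R hR).symm
  · refine ⟨((box N).card : ℝ), fun R hR => ?_⟩
    change |cntc H c R| ≤ _
    rw [hcnt R hR]
    refine (Finset.abs_sum_le_sum_abs _ _).trans ?_
    calc ∑ k ∈ box N, |(if (∀ θ : ℝ, ((k.1 : ℝ) - c.1) * cos θ + ((k.2 : ℝ) - c.2) * sin θ ≤ R * H θ) then (1 : ℝ) else 0)|
        ≤ ∑ k ∈ box N, (1 : ℝ) := Finset.sum_le_sum fun k _ => by split_ifs <;> simp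
      _ = ((box N).card : ℝ) := by simp

theorem fJ_cont (J : ℕ) : Continuous (fJ J) := by
  unfold fJ
  fun_prop

theorem fJ_bd (J : ℕ) : ∃ B : ℝ, ∀ x, |fJ J x| ≤ B := by
  refine ⟨|1 / π| * ∑ j ∈ Finset.range J, |((j + 1 : ℕ) : ℝ) ^ (-(3 / 2) : ℝ)|, fun x => ?_⟩
  unfold fJ
  rw [abs_mul]
  refine mul_le_mul_of_nonneg_left ?_ (abs_nonneg _)
  refine (Finset.abs_sum_le_sum_abs _ _).trans (Finset.sum_le_sum fun j _ => ?_)
  rw [abs_mul]
  exact mul_le_of_le_one_right (abs_nonneg _) (abs_cos_le_one _)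

theorem Mx_cont (H : ℝ → ℝ) (N : ℕ) (c : ℝ × ℝ) : Continuous fun R => Mx H N R c := by
  unfold Mx
  refine continuous_finsetSum _ fun k _ => continuous_const.mul ((fJ_cont _).comp ?_)
  fun_prop

theorem Mx_bd (H : ℝ → ℝ) (N : ℕ) : ∃ B : ℝ, 0 ≤ B ∧ ∀ R c, |Mx H N R c| ≤ B := by
  choose B hB using fJ_bd
  refine ⟨∑ k ∈ prim N, |ak H k| * B ((N - 1) / sn k), Finset.sum_nonneg fun k _ =>
    mul_nonneg (abs_nonneg _) ((abs_nonneg _).trans (hB _ 0)), fun R c => ?_⟩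
  unfold Mx
  refine (Finset.abs_sum_le_sum_abs _ _).trans (Finset.sum_le_sum fun k _ => ?_)
  rw [abs_mul]
  exact mul_le_mul_of_nonneg_left (hB _ _) (abs_nonneg _)

/-- the mean of a sum -/
theorem mean3 {X : ℝ} (hX : 1 ≤ X) {F G1 G2 : ℝ → ℝ} (hF : BM X F) (hG1 : BM X G1) (hG2 : BM X G2)
    {a b c e1 e2 : ℝ} (hb : 0 ≤ b) (hc : 0 ≤ c) (h : ∀ R ∈ Icc X (2 * X), F R ≤ a + b * G1 R + c * G2 R)
    (h1 : X⁻¹ * ∫ R in Icc X (2 * X), G1 R ≤ e1) (h2 : X⁻¹ * ∫ R in Icc X (2 * X), G2 R ≤ e2) :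
    X⁻¹ * ∫ R in Icc X (2 * X), F R ≤ a + b * e1 + c * e2 := by
  have hX0 : 0 < X := by linarith
  have ha : IntegrableOn (fun _ : ℝ => a) (Icc X (2 * X)) := integrableOn_const measure_Icc_lt_top.ne
  have i1 : IntegrableOn (fun R => b * G1 R) (Icc X (2 * X)) := hG1.int.const_mul b
  have i2 : IntegrableOn (fun R => c * G2 R) (Icc X (2 * X)) := hG2.int.const_mul c
  have i3 : IntegrableOn (fun R => a + b * G1 R) (Icc X (2 * X)) := ha.add i1
  have i4 : IntegrableOn (fun R => a + b * G1 R + c * G2 R) (Icc X (2 * X)) := i3.add i2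
  have h3 : ∫ R in Icc X (2 * X), F R ≤ ∫ R in Icc X (2 * X), (a + b * G1 R + c * G2 R) :=
    setIntegral_mono_on hF.int i4 measurableSet_Icc h
  have h4 : ∫ R in Icc X (2 * X), (a + b * G1 R + c * G2 R) =
      X * a + b * (∫ R in Icc X (2 * X), G1 R) + c * ∫ R in Icc X (2 * X), G2 R := by
    rw [integral_add i3 i2, integral_add ha i1, integral_const_mul, integral_const_mul, setIntegral_const, smul_eq_mul,
      Measure.real, Real.volume_Icc, ENNReal.toReal_ofReal (by linarith)]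
    ring
  rw [h4] at h3
  calc X⁻¹ * ∫ R in Icc X (2 * X), F R ≤ X⁻¹ * (X * a + b * (∫ R in Icc X (2 * X), G1 R) + c * ∫ R in Icc X (2 * X), G2 R) :=
        mul_le_mul_of_nonneg_left h3 (by positivity)
    _ = a + b * (X⁻¹ * ∫ R in Icc X (2 * X), G1 R) + c * (X⁻¹ * ∫ R in Icc X (2 * X), G2 R) := by
        field_simp
    _ ≤ a + b * e1 + c * e2 := by
        have q1 := mul_le_mul_of_nonneg_left h1 hb
        have q2 := mul_le_mul_of_nonneg_left h2 hc
        linarith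

/-- the normalised error -/
theorem u_bm {H : ℝ → ℝ} (hH : Continuous H) (hp : Function.Periodic H (2 * π)) (c : ℝ × ℝ) {X : ℝ}
    (hX : 1 ≤ X) : BM X (fun R => (cntc H c R - area H * R ^ 2) / sqrt R) := by
  have h1 : BM X (fun R => cntc H c R - area H * R ^ 2) :=
    (cntc_bm hH hp c hX).sub (BM.cont (by fun_prop))
  have h2 : BM X (fun R => (sqrt R)⁻¹) := by
    refine BM.cont (ContinuousOn.inv₀ Real.continuous_sqrt.continuousOn fun R hR => ?_)
    exact (Real.sqrt_pos.2 (by linarith [hR.1])).ne'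
  have h3 := h1.mul h2
  simpa only [div_eq_mul_inv] using h3

/-- the tail for the normalised error -/
theorem tail_mean {H : ℝ → ℝ} (hH : Continuous H) (hp : Function.Periodic H (2 * π)) (c : ℝ × ℝ) {X : ℝ}
    (hX : 1 ≤ X) (N J : ℕ) {η : ℝ}
    (h : ∫ R in Icc X (2 * X), |cntc H c R - area H * R ^ 2 - sqrt R * Mx H N R c| ^ (2 * J) ≤ η * X ^ (J + 1)) :
    X⁻¹ * ∫ R in Icc X (2 * X), |(cntc H c R - area H * R ^ 2) / sqrt R - Mx H N R c| ^ (2 * J) ≤ η := by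
  have hX0 : 0 < X := by linarith
  have hv : BM X (fun R => Mx H N R c) := BM.cont (Mx_cont H N c).continuousOn
  have h1 : BM X (fun R => |(cntc H c R - area H * R ^ 2) / sqrt R - Mx H N R c| ^ (2 * J)) :=
    (((u_bm hH hp c hX).sub hv).abs).pow _
  have h2 : BM X (fun R => |cntc H c R - area H * R ^ 2 - sqrt R * Mx H N R c| ^ (2 * J)) :=
    ((((cntc_bm hH hp c hX).sub (BM.cont (by fun_prop))).sub
      ((BM.cont Real.continuous_sqrt.continuousOn).mul hv)).abs).pow _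
  have h3 : ∫ R in Icc X (2 * X), |(cntc H c R - area H * R ^ 2) / sqrt R - Mx H N R c| ^ (2 * J) ≤
      ∫ R in Icc X (2 * X), (X ^ J)⁻¹ * |cntc H c R - area H * R ^ 2 - sqrt R * Mx H N R c| ^ (2 * J) := by
    refine setIntegral_mono_on h1.int (h2.int.const_mul _) measurableSet_Icc fun R hR => ?_
    have hR0 : 0 < R := by linarith [hR.1]
    have hs : 0 < sqrt R := Real.sqrt_pos.2 hR0
    have e1 : (cntc H c R - area H * R ^ 2) / sqrt R - Mx H N R c =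
        (cntc H c R - area H * R ^ 2 - sqrt R * Mx H N R c) / sqrt R := by
      field_simp
    rw [e1, abs_div, div_pow, abs_of_pos hs, pow_mul (sqrt R), Real.sq_sqrt hR0.le, div_eq_mul_inv, mul_comm]
    refine mul_le_mul_of_nonneg_right ?_ (by positivity)
    exact inv_anti₀ (by positivity) (pow_le_pow_left₀ hX0.le hR.1 J)
  rw [integral_const_mul] at h3
  calc X⁻¹ * ∫ R in Icc X (2 * X), |(cntc H c R - area H * R ^ 2) / sqrt R - Mx H N R c| ^ (2 * J)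
      ≤ X⁻¹ * ((X ^ J)⁻¹ * (η * X ^ (J + 1))) :=
        mul_le_mul_of_nonneg_left (h3.trans (mul_le_mul_of_nonneg_left h (by positivity))) (by positivity)
    _ = η := by
        field_simp
        ring


theorem BM.comp {X : ℝ} {f : ℝ → ℝ} (hf : BM X f) {φ : ℝ → ℝ} (hφ : Continuous φ) : BM X (fun R => φ (f R)) := by
  obtain ⟨h1, B, hB⟩ := hf
  obtain ⟨C, hC⟩ := (isCompact_Icc : IsCompact (Icc (-B) B)).exists_bound_of_continuousOn hφ.continuousOn
  refine ⟨hφ.measurable.comp_aemeasurable h1, C, fun R hR => ?_⟩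
  have := hC (f R) (abs_le.1 (hB R hR))
  rwa [Real.norm_eq_abs] at this

theorem BM.add {X : ℝ} {f g : ℝ → ℝ} (hf : BM X f) (hg : BM X g) : BM X (fun R => f R + g R) := by
  obtain ⟨h1, B, hB⟩ := hf
  obtain ⟨h2, B', hB'⟩ := hg
  exact ⟨h1.add h2, B + B', fun R hR => (abs_add_le _ _).trans (add_le_add (hB R hR) (hB' R hR))⟩

/-- comparison of two means -/
theorem mean_diff {X : ℝ} (hX : 1 ≤ X) {F G : ℝ → ℝ} (hF : BM X F) (hG : BM X G) :
    |X⁻¹ * (∫ R in Icc X (2 * X), F R) - X⁻¹ * (∫ R in Icc X (2 * X), G R)| ≤ X⁻¹ * ∫ R in Icc X (2 * X), |F R - G R| := by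
  have hX0 : 0 < X := by linarith
  rw [← mul_sub, ← integral_sub hF.int hG.int, abs_mul, abs_of_pos (inv_pos.2 hX0)]
  exact mul_le_mul_of_nonneg_left (abs_integral_le_integral_abs) (by positivity)

theorem mean_mono {X : ℝ} (hX : 1 ≤ X) {F G : ℝ → ℝ} (hF : BM X F) (hG : BM X G) (h : ∀ R ∈ Icc X (2 * X), F R ≤ G R) :
    X⁻¹ * (∫ R in Icc X (2 * X), F R) ≤ X⁻¹ * ∫ R in Icc X (2 * X), G R := by
  have hX0 : 0 < X := by linarith
  exact mul_le_mul_of_nonneg_left (setIntegral_mono_on hF.int hG.int measurableSet_Icc h) (by positivity)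

theorem mean_const {X : ℝ} (hX : 1 ≤ X) (a : ℝ) : X⁻¹ * (∫ _ in Icc X (2 * X), a) = a := by
  have hX0 : 0 < X := by linarith
  rw [setIntegral_const, smul_eq_mul, Measure.real, Real.volume_Icc, ENNReal.toReal_ofReal (by linarith)]
  field_simp
  ring

/-- a family of means with approximate limits converges -/
theorem lim_of_approx {f : ℝ → ℝ × ℝ → ℝ} (h : ∀ ε : ℝ, 0 < ε → ∃ M X₀ : ℝ, 1 ≤ X₀ ∧ ∀ X : ℝ, X₀ ≤ X → ∀ c : ℝ × ℝ, |f X c - M| ≤ ε) :
    ∃ m : ℝ, ∀ ε : ℝ, 0 < ε → ∃ X₀ : ℝ, 1 ≤ X₀ ∧ ∀ X : ℝ, X₀ ≤ X → ∀ c : ℝ × ℝ, |f X c - m| ≤ ε := by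
  have h' : ∀ n : ℕ, ∃ M X₀ : ℝ, 1 ≤ X₀ ∧ ∀ X : ℝ, X₀ ≤ X → ∀ c : ℝ × ℝ, |f X c - M| ≤ 1 / ((n : ℝ) + 1) := fun n => h _ (by positivity)
  choose M X₀ hX₀ hM using h'
  have hd : ∀ i j : ℕ, |M i - M j| ≤ 1 / ((i : ℝ) + 1) + 1 / ((j : ℝ) + 1) := by
    intro i j
    have h1 := hM i (max (X₀ i) (X₀ j)) (le_max_left _ _) 0
    have h2 := hM j (max (X₀ i) (X₀ j)) (le_max_right _ _) 0
    have e : M i - M j = -(f (max (X₀ i) (X₀ j)) 0 - M i) + (f (max (X₀ i) (X₀ j)) 0 - M j) := by ring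
    rw [e]
    refine (abs_add_le _ _).trans ?_
    rw [abs_neg]
    exact add_le_add h1 h2
  have hc : CauchySeq M := by
    refine cauchySeq_of_le_tendsto_0 (fun n : ℕ => 2 * (1 / ((n : ℝ) + 1))) ?_ ?_
    · intro i j N hi hj
      rw [Real.dist_eq]
      refine (hd i j).trans ?_
      have hi' : (N : ℝ) ≤ i := by exact_mod_cast hi
      have hj' : (N : ℝ) ≤ j := by exact_mod_cast hj
      have h1 : 1 / ((i : ℝ) + 1) ≤ 1 / ((N : ℝ) + 1) := one_div_le_one_div_of_le (by positivity) (by linarith)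
      have h2 : 1 / ((j : ℝ) + 1) ≤ 1 / ((N : ℝ) + 1) := one_div_le_one_div_of_le (by positivity) (by linarith)
      linarith
    · have := (tendsto_one_div_add_atTop_nhds_zero_nat (𝕜 := ℝ)).const_mul 2
      rwa [mul_zero] at this
  obtain ⟨m, hm⟩ := cauchySeq_tendsto_of_complete hc
  have hm' : ∀ i : ℕ, |M i - m| ≤ 1 / ((i : ℝ) + 1) := by
    intro i
    have h1 : Tendsto (fun j : ℕ => |M i - M j|) atTop (𝓝 |M i - m|) := (tendsto_const_nhds.sub hm).abs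
    have h2 : Tendsto (fun j : ℕ => 1 / ((i : ℝ) + 1) + 1 / ((j : ℝ) + 1)) atTop (𝓝 (1 / ((i : ℝ) + 1) + 0)) :=
      tendsto_const_nhds.add (tendsto_one_div_add_atTop_nhds_zero_nat (𝕜 := ℝ))
    rw [add_zero] at h2
    exact le_of_tendsto_of_tendsto' h1 h2 fun j => hd i j
  refine ⟨m, fun ε hε => ?_⟩
  obtain ⟨n, hn⟩ := exists_nat_one_div_lt (half_pos hε)
  refine ⟨X₀ n, hX₀ n, fun X hX c => ?_⟩
  have e : f X c - m = (f X c - M n) + (M n - m) := by ring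
  rw [e]
  refine (abs_add_le _ _).trans ?_
  have h1 := hM n X hX c
  have h2 := hm' n
  linarith

end Pool.Agent.Helper92.LW
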