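import Pool.Agent.Helper92.MM.Defs
import Pool.Agent.Helper93.EX.Defs

/-!
# LW (MP_fb29e9_nt): the limit law of the error term and the convergence of the means of all test functions of polynomial growth. Definitions
-/

open MeasureTheory Real Set Filter Topology

set_option autoImplicit false

namespace Pool.Agent.Helper92.LW

open Pool.Agent.Helper22.AE
open Pool.Agent.Helper22.AC (cntc)

/-- the mean over `[X, 2X]` of `φ` of the normalized error converges, uniformly in the centre, to a number independent of the centre -/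
def LimF (H : ℝ → ℝ) (φ : ℝ → ℝ) : Prop :=
  ∃ m : ℝ, ∀ ε : ℝ, 0 < ε → ∃ X₀ : ℝ, 1 ≤ X₀ ∧ ∀ X : ℝ, X₀ ≤ X → ∀ c : ℝ × ℝ,
    |X⁻¹ * (∫ R in Icc X (2 * X), φ ((cntc H c R - area H * R ^ 2) / sqrt R)) - m| ≤ ε

/-- the cutoff at `K + 1` -/
noncomputable def cut (K : ℕ) (y : ℝ) : ℝ := max 0 (min 1 (2 - |y| / ((K : ℝ) + 1)))

/-- a countable family of test functions with compact support -/
noncomputable def fjk (j K : ℕ) (y : ℝ) : ℝ := y ^ j * cut K y

end Pool.Agent.Helper92.LW
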