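import Pool.Agent.Helper92.LW.Prev
import Pool.Agent.Helper22.LW.FinLaw
import Pool.Agent.Helper68.LW.SerLaw
import Pool.Agent.Helper43.LW.RatLimF
import Pool.Agent.Helper40.LW.LimMeasF
import Pool.Agent.Helper75.LW.Grow
import Pool.Agent.Helper85.MM.Ser
import Pool.Agent.Helper60.MM.M7
import Pool.Agent.Helper60.MM.M8
import Pool.Agent.Helper88.MM.MomMeas

/-!
# LW: the theorem for the random series and for prevalence
-/

open MeasureTheory Real Set Filter Topology unitInterval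

set_option autoImplicit false

namespace Pool.Agent.Helper92.LW

open Pool.Agent.Helper22.AE
open Pool.Agent.Helper22.AC (cntc)

/-- all moments at the worst centre are bounded, and the means of the test functions of the countable family converge -/
def PM (H : ℝ → ℝ) : Prop :=
  (∀ J : ℕ, ∃ C : ℝ, ∀ X : ℝ, 1 ≤ X → Pool.Agent.Helper92.MM.mom J H X ≤ ENNReal.ofReal (C * X ^ (1 + J))) ∧ ∀ j K : ℕ, LimF H (fjk j K)

theorem main_ser_PM {H₀ : ℝ → ℝ} (h0 : ContDiff ℝ 2 H₀) (hp : Function.Periodic H₀ (2 * π)) {s : ℕ → ℝ}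
    (hs : Summable (fun l : ℕ => (l : ℝ) ^ 2 * |s l|)) (hs0 : ∀ l, s l ≠ 0) :
    ∀ᵐ x ∂(Measure.infinitePi fun _ : ℕ => (volume : Measure (I × I))),
      (∀ θ, 0 < Hx H₀ s x θ + deriv (deriv (Hx H₀ s x)) θ) → PM (Hx H₀ s x) := by
  have h1 := Pool.Agent.Helper85.MM.main_ser_M_of (fun {_} hJ => Pool.Agent.Helper60.MM.main_fin_M hJ)
    (fun {_} {_} h0 hp {_} hs => Pool.Agent.Helper88.MM.mom_meas_of (fun h2 hp hr => Pool.Agent.Helper60.MM.mom_rat h2 hp hr) h0 hp hs) h0 hp hs hs0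
  have h2 := Pool.Agent.Helper68.LW.ser_law_of (fun {_} hH hp hr {_} hφ => Pool.Agent.Helper43.LW.rat_limF hH hp hr hφ)
    (fun {_} h0 hp {_} hs c {_} hX {_} hφ => Pool.Agent.Helper40.LW.lim_measF h0 hp hs c hX hφ) Pool.Agent.Helper22.LW.fin_law h0 hp hs hs0
  filter_upwards [h1, h2] with x h1 h2
  exact fun hov => ⟨h1 hov, h2 hov⟩

/-- prevalence -/
theorem prev_PM {k : ℕ∞} (hk : 2 ≤ k) {V : Type} [TopologicalSpace V] [MeasurableSpace V] [BorelSpace V] {val : V → ℝ → ℝ}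
    (h : Pool.Agent.Helper92.AD.IsPerI k val) :
    ∃ B : Set V, (∀ H, ¬ ((∀ t, 0 < val H t + deriv (deriv (val H)) t) → PM (val H)) → H ∈ B) ∧
      MeasurableSet B ∧ ∃ μ : Measure V, IsProbabilityMeasure μ ∧ (∃ K : Set V, IsCompact K ∧ μ Kᶜ = 0) ∧
        ∀ v : V, μ {w | ∃ u ∈ B, ∀ t, val u t = val w t + val v t} = 0 :=
  Pool.Agent.Helper92.MMP.prev_gen (P := PM) (fun {_} h0 hp {_} hs hl => main_ser_PM h0 hp hs hl) hk h
    (Pool.Agent.Helper92.MMP.and_meas92 (Pool.Agent.Helper92.MMP.mom_meas92 (fun h2 hp hr => Pool.Agent.Helper60.MM.mom_rat h2 hp hr) h hk)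
      (limF_meas (fun {_} hH hp hr {_} hφ => Pool.Agent.Helper43.LW.rat_limF hH hp hr hφ) h hk))

/-- all test functions of polynomial growth -/
theorem PM.lim {H : ℝ → ℝ} (hP : PM H) (hH : ContDiff ℝ 2 H) (hp : Function.Periodic H (2 * π)) {φ : ℝ → ℝ} (hφ : Continuous φ) {A : ℝ} {q : ℕ}
    (hg : ∀ y, |φ y| ≤ A * (1 + |y|) ^ q) : LimF H φ :=
  Pool.Agent.Helper75.LW.grow_of hH hp hP.2 hP.1 hφ hg

end Pool.Agent.Helper92.LW
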