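import Pool.Agent.Helper11.AM.SumTail2

/-!
# LW: copy of `core_tail` (Helper11/MM/Tail) with a positive cut `n0`
-/

open MeasureTheory Real Set Filter Topology

set_option autoImplicit false

namespace Pool.Agent.Helper92.LW

open Pool.Agent.Helper22.AE
open Pool.Agent.Helper22.AC (cntc)
open Pool.Agent.Helper92.GC (dt sqa)
open Pool.Agent.Helper60.AD
open Pool.Agent.Helper93.EX (Mx ak fJ prim)
open Pool.Agent.Helper11.MM hiding core_tail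
open Pool.Agent.Helper92.MM (gd1)

private lemma pow_ex (x : ℝ) : ∃ n : ℕ, x ≤ 2 ^ n := by
  obtain ⟨n, hn⟩ := pow_unbounded_of_one_lt x one_lt_two
  exact ⟨n, hn.le⟩

/-- a multiple of a support function -/
private lemma supp_mul {H : ℝ → ℝ} (hH : IsSupp H) {r : ℝ} (hr : 0 < r) : IsSupp (fun θ => r * H θ) := by
  have e : deriv (deriv (fun θ => r * H θ)) = fun θ => r * deriv (deriv H) θ := by
    have e1 : deriv (fun θ => r * H θ) = fun θ => r * deriv H θ := by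
      funext θ
      rw [deriv_const_mul_field]
    rw [e1]
    funext θ
    rw [deriv_const_mul_field]
  refine ⟨contDiff_const.mul hH.smooth, fun θ => ?_, fun θ => mul_pos hr (hH.pos θ), fun θ => ?_⟩
  · show r * H (θ + 2 * π) = r * H θ
    rw [hH.per θ]
  · rw [e]
    show 0 < r * H θ + r * deriv (deriv H) θ
    rw [← mul_add]
    exact mul_pos hr (hH.rho_pos θ)

/-- `N` is small against the square root of `2 ^ N` -/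
private lemma nat_small (K : ℝ) {ε : ℝ} (hε : 0 < ε) : ∃ N₀ : ℕ, ∀ N : ℕ, N₀ ≤ N → K * N ≤ ε * ((2 : ℝ) ^ N) ^ (1 / 2 : ℝ) := by
  have h1 : (1 : ℝ) < 2 ^ (1 / 2 : ℝ) := Real.one_lt_rpow (by norm_num) (by norm_num)
  have h2 := tendsto_pow_const_div_const_pow_of_one_lt 1 h1
  have h3 : Tendsto (fun n : ℕ => K * ((n : ℝ) ^ 1 / ((2 : ℝ) ^ (1 / 2 : ℝ)) ^ n)) atTop (𝓝 (K * 0)) := h2.const_mul K
  rw [mul_zero] at h3
  obtain ⟨N₀, hN₀⟩ := Filter.eventually_atTop.mp (h3.eventually (gt_mem_nhds hε))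
  refine ⟨N₀, fun N hN => ?_⟩
  have h4 := (hN₀ N hN).le
  have e : ((2 : ℝ) ^ N) ^ (1 / 2 : ℝ) = ((2 : ℝ) ^ (1 / 2 : ℝ)) ^ N := by
    rw [← Real.rpow_natCast, ← Real.rpow_natCast, ← Real.rpow_mul (by norm_num), ← Real.rpow_mul (by norm_num), mul_comm]
  rw [e]
  have h5 : (0 : ℝ) < ((2 : ℝ) ^ (1 / 2 : ℝ)) ^ N := by positivity
  rw [pow_one, ← mul_div_assoc, div_le_iff₀ h5] at h4
  exact h4

theorem core_tail1 {L : ℕ} {H₀ : ℝ → ℝ} (h0 : ContDiff ℝ 2 H₀) (hp : Function.Periodic H₀ (2 * π)) {J : ℕ} (hJ : 1 ≤ J) {e2 u A : ℝ}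
    (he2 : 0 < e2) (he2' : e2 ≤ 1 / 4) (hu : 0 < u) (hu1 : u ≤ 1) (hA : 0 ≤ A) {nT : ℕ} {C : ℝ} (hC : 0 ≤ C)
    (hlow : ∀ {H : ℝ → ℝ}, IsSupp H → ∀ {τ e2 : ℝ}, 1 / 2 < τ → τ < 1 → 0 < e2 →
      ∃ m : ℝ, 0 < m ∧ ∀ (n0 : ℕ) (ε : ℝ), 0 < ε → ∃ R₁ : ℝ, 1 ≤ R₁ ∧ ∀ R₀ : ℝ, R₁ ≤ R₀ → m * R₀ ^ (-τ) ≤ R₀ / 2 ∧
        ∀ n1 : ℕ, n0 ≤ n1 → R₀ ^ (τ + e2) ≤ 2 ^ n1 →
        ∀ B : ℕ → ℝ → ℝ, (∀ n, n0 ≤ n → n < n1 → ∀ r ∈ Icc (R₀ / 2) (4 * R₀), 0 ≤ B n r ∧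
          ∀ c' : ℝ × ℝ, ‖∑ k ∈ sqa (2 ^ n), ft (fun θ => r * H θ) k * ee (dt k c')‖ ≤ B n r) →
        ∀ R ∈ Icc R₀ (2 * R₀), ∀ c : ℝ × ℝ,
          |cntc H c R - area H * R ^ 2 - sqrt R * Mx H (2 ^ n0) R c| ≤ ε * sqrt R₀ +
            ∑ n ∈ Finset.Ico n0 n1, (B n (R + m * R₀ ^ (-τ)) + B n (R - m * R₀ ^ (-τ))))
    (b : ℕ → Fin nT → ℝ → ℤ × ℤ → ℂ)
    (w : (Fin L → ℝ) × (Fin L → ℝ)) (hw : ∀ θ, 0 < Hw H₀ w θ + deriv (deriv (Hw H₀ w)) θ)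
    (hty : ∀ (n : ℕ) (p : ℝ × ℝ) (R₀ R : ℝ), 1 ≤ R₀ →
        R ∈ Icc (R₀ / 2) (4 * R₀) → IsSupp (fun θ => R * (Hw H₀ w θ - (p.1 * cos θ + p.2 * sin θ))) → ∀ c : ℝ × ℝ, ∃ c' : ℝ × ℝ,
          ‖∑ k ∈ sqa (2 ^ n), ft (fun θ => R * (Hw H₀ w θ - (p.1 * cos θ + p.2 * sin θ))) k * ee (dt k c)‖ ≤
            C * R₀ ^ (1 / 2 : ℝ) * ((2 : ℝ) ^ n) ^ (-(3 / 2) : ℝ) * (∑ i, ∑ r ∈ Finset.range 2,
              ∫ α in Icc (-π) π ∩ {α | 1 / 2 ≤ |cos α|}, k0 ((R₀ * 2 ^ n) ^ (-(1 / 2) : ℝ)) α *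
                ‖Sc (Hw H₀ w) (blk (n + r)) (b n i α) R α c'‖) + C)
    {N₁ : ℕ} (hW : ∀ N : ℕ, N₁ ≤ N → ∀ n : ℕ, ∀ i : Fin nT, ∀ r < 2, (2 : ℝ) ^ (n + r) ≤ ((2 : ℝ) ^ N) ^ (1 / 2 + e2) →
      ∃ W : ℝ → ℝ, Measurable W ∧ IntegrableOn W (Icc ((2 : ℝ) ^ N / 2) (4 * 2 ^ N)) ∧ (∀ R, 0 ≤ W R) ∧
        (∀ R ∈ Icc ((2 : ℝ) ^ N / 2) (4 * 2 ^ N), ∀ c : ℝ × ℝ,
          (∫ α in Icc (-π) π ∩ {α | 1 / 2 ≤ |cos α|}, k0 (((2 : ℝ) ^ N * 2 ^ n) ^ (-(1 / 2) : ℝ)) α *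
            ‖Sc (Hw H₀ w) (blk (n + r)) (b n i α) R α c‖) ^ (2 * J) ≤ W R) ∧
        ∫ R in Icc ((2 : ℝ) ^ N / 2) (4 * 2 ^ N), W R ≤ A * 2 ^ N * ((2 : ℝ) ^ (n + r)) ^ (3 * J - u : ℝ))
    {η : ℝ} (hη : 0 < η) :
    ∃ n0 N₂ : ℕ, 1 ≤ n0 ∧ ∀ N : ℕ, N₂ ≤ N → ∃ V : ℝ → ℝ, Measurable V ∧ IntegrableOn V (Icc ((2 : ℝ) ^ N) (2 * 2 ^ N)) ∧
      (∀ R ∈ Icc ((2 : ℝ) ^ N) (2 * 2 ^ N), ∀ c : ℝ × ℝ,
        |cntc (Hw H₀ w) c R - area (Hw H₀ w) * R ^ 2 - sqrt R * Mx (Hw H₀ w) (2 ^ n0) R c| ^ (2 * J) ≤ V R) ∧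
      (∀ R, 0 ≤ V R) ∧ ∫ R in Icc ((2 : ℝ) ^ N) (2 * 2 ^ N), V R ≤ η * ((2 : ℝ) ^ N) ^ (J + 1) := by
  classical
  have hS2 := Hw_smooth h0 w
  have hSp := Hw_per hp w
  obtain ⟨p, hH⟩ := Pool.Agent.Helper11.AD.exists_inner hS2 hSp hw
  obtain ⟨m, hm, hlow1⟩ := hlow hH (τ := 1 / 2 + e2 / 4) (e2 := e2 / 4) (by linarith) (by linarith) (by linarith)
  have hJ1 : (1 : ℝ) ≤ J := by exact_mod_cast hJ
  obtain ⟨G, hG0, hG⟩ := geo_le (κ := u / (4 * J)) (by positivity)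
  set Z : ℝ := 2 * nT * G + 1 with hZ
  have hZ0 : 0 ≤ Z := by positivity
  set K₃ : ℝ := (C * Z) ^ (2 * J) with hK₃
  have hK₃0 : 0 ≤ K₃ := by positivity
  -- the constants
  set F : ℝ := 4 ^ (2 * J) with hF
  have hF0 : 0 < F := by positivity
  set ε : ℝ := min 1 (η / (4 * F)) with hε
  have hε0 : 0 < ε := lt_min one_pos (by positivity)
  have hεJ : F * (2 * ε ^ (2 * J)) ≤ η / 2 := by
    have h1 : ε ^ (2 * J) ≤ ε := by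
      calc ε ^ (2 * J) ≤ ε ^ 1 := pow_le_pow_of_le_one hε0.le (min_le_left _ _) (by omega)
        _ = ε := pow_one _
    have h2 : ε ≤ η / (4 * F) := min_le_right _ _
    calc F * (2 * ε ^ (2 * J)) ≤ F * (2 * (η / (4 * F))) := by
          refine mul_le_mul_of_nonneg_left ?_ hF0.le
          linarith
      _ = η / 2 := by field_simp; ring
  set P : ℝ := F * K₃ * (2 * (2 * nT * 8 ^ J * A)) with hP
  have hP0 : 0 ≤ P := by positivity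
  set g : ℝ := η / (2 * (P + 1)) with hg
  have hg0 : 0 < g := by positivity
  have hPg : P * g ≤ η / 2 := by
    rw [hg, ← mul_div_assoc, div_le_iff₀ (by positivity)]
    nlinarith
  obtain ⟨n0', hn0'⟩ := geo_tail (κ := u / (4 * J)) (by positivity) hg0
  obtain ⟨n0, hn0e⟩ : ∃ n0 : ℕ, n0 = max n0' 1 := ⟨_, rfl⟩
  have hn00 : 1 ≤ n0 := by omega
  have hn0 : ∀ n1 : ℕ, ∑ n ∈ Finset.Ico n0 n1, ((2 : ℝ) ^ n) ^ (-(u / (4 * J))) ≤ g := by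
    intro n1
    refine le_trans (Finset.sum_le_sum_of_subset_of_nonneg (Finset.Ico_subset_Ico_left (by omega)) fun n _ _ => by positivity) (hn0' n1)
  obtain ⟨R₁, hR₁, hlow2⟩ := hlow1 n0 ε hε0
  obtain ⟨N₂, hN₂⟩ := pow_ex R₁
  obtain ⟨N₃, hN₃⟩ : ∃ N₃ : ℕ, 2 / e2 ≤ N₃ := exists_nat_ge _
  obtain ⟨N₄, hN₄⟩ := nat_small (2 * C) hε0
  refine ⟨n0, N₁ + N₂ + N₃ + N₄ + 2 * n0, hn00, fun N hNN => ?_⟩
  set R0 : ℝ := 2 ^ N with hR0def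
  have hR1 : (1 : ℝ) ≤ R0 := one_le_pow₀ (by norm_num)
  have hR0 : (0 : ℝ) < R0 := by positivity
  set q : ℝ := R0 ^ (1 / 2 : ℝ) with hq
  have hq0 : 0 ≤ q := by positivity
  have hqs : sqrt R0 = q := Real.sqrt_eq_rpow R0
  have hqJ : q ^ (2 * J) = R0 ^ J := by
    rw [hq, pow_mul, ← Real.rpow_natCast _ 2, ← Real.rpow_mul hR0.le]
    norm_num
  have hexn : ∃ n : ℕ, R0 ^ (1 / 2 + e2 / 2) ≤ 2 ^ n := pow_ex _
  set n1 := Nat.find hexn with hn1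
  have hn1s : R0 ^ (1 / 2 + e2 / 2) ≤ 2 ^ n1 := Nat.find_spec hexn
  have hn1N : n1 ≤ N := by
    apply Nat.find_min' hexn
    calc R0 ^ (1 / 2 + e2 / 2) ≤ R0 ^ (1 : ℝ) :=
          Real.rpow_le_rpow_of_exponent_le hR1 (by linarith)
      _ = 2 ^ N := Real.rpow_one _
  have hn01 : n0 ≤ n1 := by
    have h1 : (2 : ℝ) ^ n0 ≤ 2 ^ n1 := by
      refine le_trans ?_ hn1s
      calc (2 : ℝ) ^ n0 = ((2 : ℝ) ^ (2 * n0)) ^ (1 / 2 : ℝ) := by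
            rw [← Real.rpow_natCast _ (2 * n0), ← Real.rpow_mul (by norm_num), ← Real.rpow_natCast]
            congr 1
            push_cast
            ring
        _ ≤ R0 ^ (1 / 2 : ℝ) :=
            Real.rpow_le_rpow (by positivity) (pow_le_pow_right₀ (by norm_num) (by omega)) (by norm_num)
        _ ≤ R0 ^ (1 / 2 + e2 / 2) := Real.rpow_le_rpow_of_exponent_le hR1 (by linarith)
    exact (pow_le_pow_iff_right₀ (by norm_num : (1 : ℝ) < 2)).mp h1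
  -- two is at most the small power
  have htwo : (2 : ℝ) ≤ R0 ^ (e2 / 2) := by
    rw [hR0def, ← Real.rpow_natCast, ← Real.rpow_mul (by norm_num)]
    have h1 : (1 : ℝ) ≤ N * (e2 / 2) := by
      have h2 : (N₃ : ℝ) ≤ N := by exact_mod_cast (by omega : N₃ ≤ N)
      have h3 : 2 / e2 ≤ N := hN₃.trans h2
      rw [div_le_iff₀ he2] at h3
      linarith
    calc (2 : ℝ) = 2 ^ (1 : ℝ) := (Real.rpow_one _).symm
      _ ≤ _ := Real.rpow_le_rpow_of_exponent_le (by norm_num) h1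
  have hbig : R₁ ≤ R0 := hN₂.trans (pow_le_pow_right₀ (by norm_num) (by omega))
  obtain ⟨hd1, hdl⟩ := hlow2 R0 hbig
  set d : ℝ := m * R0 ^ (-(1 / 2 + e2 / 4)) with hd
  have hd0 : 0 ≤ d := by positivity
  have hsmall : ∀ n < n1, ∀ r < 2, (2 : ℝ) ^ (n + r) ≤ R0 ^ (1 / 2 + e2) := by
    intro n hn r hr
    have hn2 : (2 : ℝ) ^ n ≤ R0 ^ (1 / 2 + e2 / 2) := by
      have := Nat.find_min hexn hn
      rw [not_le] at this
      exact this.le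
    calc (2 : ℝ) ^ (n + r) ≤ 2 ^ (n + 1) := pow_le_pow_right₀ (by norm_num) (by omega)
      _ = 2 * 2 ^ n := by rw [pow_succ]; ring
      _ ≤ R0 ^ (e2 / 2) * R0 ^ (1 / 2 + e2 / 2) := mul_le_mul htwo hn2 (by positivity) (by positivity)
      _ = R0 ^ (1 / 2 + e2) := by
        rw [← Real.rpow_add hR0]
        congr 1
        ring
  -- the majorants
  have hex : ∀ (n : ℕ) (i : Fin nT) (r : ℕ), ∃ W : ℝ → ℝ, Measurable W ∧ IntegrableOn W (Icc (R0 / 2) (4 * R0)) ∧ (∀ R, 0 ≤ W R) ∧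
      (n < n1 → r < 2 → (∀ R ∈ Icc (R0 / 2) (4 * R0), ∀ c : ℝ × ℝ,
        (∫ α in Icc (-π) π ∩ {α | 1 / 2 ≤ |cos α|}, k0 ((R0 * 2 ^ n) ^ (-(1 / 2) : ℝ)) α *
            ‖Sc (Hw H₀ w) (blk (n + r)) (b n i α) R α c‖) ^ (2 * J) ≤ W R) ∧
        ∫ R in Icc (R0 / 2) (4 * R0), W R ≤ A * R0 * ((2 : ℝ) ^ (n + r)) ^ (3 * J - u : ℝ)) := by
    intro n i r
    by_cases h : n < n1 ∧ r < 2
    · obtain ⟨W, h1, h2, h3, h4, h5⟩ := hW N (by omega) n i r h.2 (hsmall n h.1 r h.2)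
      exact ⟨W, h1, h2, h3, fun _ _ => ⟨h4, h5⟩⟩
    · exact ⟨fun _ => 0, measurable_const, integrableOn_zero, fun _ => le_rfl, fun h1 h2 => absurd ⟨h1, h2⟩ h⟩
  choose W hWm hWi hW0 hWb using hex
  set TT : ℝ → ℝ := fun R => ∑ n ∈ Finset.Ico n0 n1, ((2 : ℝ) ^ n) ^ ((2 * J - 1) * (u / (4 * J)) - 3 * J) *
      (∑ i, ∑ r ∈ Finset.range 2, W n i r R) with hTT
  have hTTm : Measurable TT := by
    refine Finset.measurable_sum _ fun n _ => Measurable.const_mul ?_ _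
    exact Finset.measurable_sum _ fun i _ => Finset.measurable_sum _ fun r _ => hWm n i r
  have hTTi : IntegrableOn TT (Icc (R0 / 2) (4 * R0)) := by
    refine integrable_finsetSum _ fun n _ => Integrable.const_mul ?_ _
    exact integrable_finsetSum _ fun i _ => integrable_finsetSum _ fun r _ => hWi n i r
  have hTT0 : ∀ R, 0 ≤ TT R := by
    intro R
    exact Finset.sum_nonneg fun n _ => mul_nonneg (by positivity)
      (Finset.sum_nonneg fun i _ => Finset.sum_nonneg fun r _ => hW0 n i r R)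
  have hTTint : ∫ R in Icc (R0 / 2) (4 * R0), TT R ≤ 2 * nT * 8 ^ J * A * g * R0 :=
    TT_int' hJ hu hA hR0 _ (hn0 n1) W hWi (fun n hn i r hr => (hWb n i r (Finset.mem_Ico.mp hn).2 hr).2) hu1
  set SS : ℝ → ℝ := fun R => ∑ n ∈ Finset.Ico n0 n1, ((2 : ℝ) ^ n) ^ (-(3 / 2) : ℝ) *
    (∑ i, ∑ r ∈ Finset.range 2, W n i r R ^ (((2 * J : ℕ) : ℝ)⁻¹)) with hSS
  have hSS0 : ∀ R, 0 ≤ SS R := by
    intro R
    exact Finset.sum_nonneg fun n _ => mul_nonneg (by positivity)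
      (Finset.sum_nonneg fun i _ => Finset.sum_nonneg fun r _ => Real.rpow_nonneg (hW0 n i r R) _)
  have hGI : ∑ n ∈ Finset.Ico n0 n1, ((2 : ℝ) ^ n) ^ (-(u / (4 * J))) ≤ G := by
    refine le_trans (Finset.sum_le_sum_of_subset_of_nonneg ?_ fun n _ _ => by positivity) (hG n1)
    intro n hn
    exact Finset.mem_range.mpr (Finset.mem_Ico.mp hn).2
  have hSST : ∀ R, SS R ^ (2 * J) ≤ Z ^ (2 * J) * TT R := by
    intro R
    exact blocks_pow' hJ _ hGI hG0 (fun n i r => W n i r R) (fun n i r => hW0 n i r R)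
  -- the majorant
  set V : ℝ → ℝ := fun R => F * (ε ^ (2 * J) * R0 ^ J + ε ^ (2 * J) * R0 ^ J + K₃ * R0 ^ J * TT (R + d) + K₃ * R0 ^ J * TT (R + -d)) with hV
  have hVi1 : IntegrableOn (fun R => TT (R + d)) (Icc R0 (2 * R0)) := shift_integrable hTTi (by linarith) (by linarith)
  have hVi2 : IntegrableOn (fun R => TT (R + -d)) (Icc R0 (2 * R0)) := shift_integrable hTTi (by linarith) (by linarith)
  have hci : ∀ c : ℝ, IntegrableOn (fun _ : ℝ => c) (Icc R0 (2 * R0)) := fun c =>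
    continuous_const.continuousOn.integrableOn_compact isCompact_Icc
  refine ⟨V, ?_, ?_, ?_, ?_, ?_⟩
  · refine Measurable.const_mul ?_ _
    refine ((measurable_const.add measurable_const).add ((hTTm.comp (measurable_id.add_const d)).const_mul _)).add
      ((hTTm.comp (measurable_id.add_const (-d))).const_mul _)
  · refine Integrable.const_mul ?_ _
    exact (((hci _).add (hci _)).add (hVi1.const_mul _)).add (hVi2.const_mul _)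
  · intro R hR c
    have hpow : R0 ^ (1 / 2 + e2 / 4 + e2 / 4) ≤ 2 ^ n1 := by
      have e : (1 / 2 + e2 / 4 + e2 / 4 : ℝ) = 1 / 2 + e2 / 2 := by ring
      rw [e]
      exact hn1s
    have hfin := hdl n1 hn01 hpow (fun n r => C * q * ((2 : ℝ) ^ n) ^ (-(3 / 2) : ℝ) *
        (∑ i, ∑ r' ∈ Finset.range 2, W n i r' r ^ (((2 * J : ℕ) : ℝ)⁻¹)) + C) (by
      intro n _ hn r hr
      have hr0 : 0 < r := lt_of_lt_of_le (by positivity) hr.1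
      refine ⟨?_, fun c' => ?_⟩
      · have h1 : 0 ≤ ∑ i, ∑ r' ∈ Finset.range 2, W n i r' r ^ (((2 * J : ℕ) : ℝ)⁻¹) :=
          Finset.sum_nonneg fun i _ => Finset.sum_nonneg fun r' _ => Real.rpow_nonneg (hW0 n i r' r) _
        positivity
      obtain ⟨c'', hc''⟩ := hty n p R0 r hR1 hr (supp_mul hH hr0) c'
      refine hc''.trans ?_
      have h1 : ∑ i : Fin nT, ∑ r' ∈ Finset.range 2,
          ∫ α in Icc (-π) π ∩ {α | 1 / 2 ≤ |cos α|}, k0 ((R0 * 2 ^ n) ^ (-(1 / 2) : ℝ)) α *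
            ‖Sc (Hw H₀ w) (blk (n + r')) (b n i α) r α c''‖ ≤
          ∑ i, ∑ r' ∈ Finset.range 2, W n i r' r ^ (((2 * J : ℕ) : ℝ)⁻¹) := by
        refine Finset.sum_le_sum fun i _ => Finset.sum_le_sum fun r' hr' => ?_
        rw [Finset.mem_range] at hr'
        have h2 := (hWb n i r' hn hr').1 r hr c''
        set y := ∫ α in Icc (-π) π ∩ {α | 1 / 2 ≤ |cos α|}, k0 ((R0 * 2 ^ n) ^ (-(1 / 2) : ℝ)) α *
            ‖Sc (Hw H₀ w) (blk (n + r')) (b n i α) r α c''‖ with hy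
        have hy0 : 0 ≤ y := by
          refine integral_nonneg fun α => mul_nonneg ?_ (norm_nonneg _)
          unfold k0
          positivity
        calc y = (y ^ (2 * J)) ^ (((2 * J : ℕ) : ℝ)⁻¹) := (Real.pow_rpow_inv_natCast hy0 (by omega)).symm
          _ ≤ _ := Real.rpow_le_rpow (by positivity) h2 (by positivity)
      exact add_le_add (mul_le_mul_of_nonneg_left h1 (by positivity)) le_rfl) R hR (c.1 + R * p.1, c.2 + R * p.2)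
    rw [← Pool.Agent.Helper11.AD.cntc_shift (Hw H₀ w) p c R, ← Pool.Agent.Helper11.AD.area_shift (Hw H₀ w) p,
      mx_shift hS2 p, hqs] at hfin
    have e1 : ∑ n ∈ Finset.Ico n0 n1, ((C * q * ((2 : ℝ) ^ n) ^ (-(3 / 2) : ℝ) *
        (∑ i, ∑ r' ∈ Finset.range 2, W n i r' (R + d) ^ (((2 * J : ℕ) : ℝ)⁻¹)) + C) +
        (C * q * ((2 : ℝ) ^ n) ^ (-(3 / 2) : ℝ) *
        (∑ i, ∑ r' ∈ Finset.range 2, W n i r' (R - d) ^ (((2 * J : ℕ) : ℝ)⁻¹)) + C)) =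
        2 * C * ((n1 - n0 : ℕ) : ℝ) + C * q * SS (R + d) + C * q * SS (R + -d) := by
      rw [hSS]
      simp only [Finset.mul_sum, ← sub_eq_add_neg]
      rw [Finset.sum_add_distrib, Finset.sum_add_distrib, Finset.sum_add_distrib]
      simp only [Finset.sum_const, Nat.card_Ico, nsmul_eq_mul, mul_assoc]
      ring
    rw [e1] at hfin
    have h2 : 2 * C * ((n1 - n0 : ℕ) : ℝ) ≤ ε * q := by
      have h3 : ((n1 - n0 : ℕ) : ℝ) ≤ N := by exact_mod_cast (by omega : n1 - n0 ≤ N)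
      exact (mul_le_mul_of_nonneg_left h3 (by positivity)).trans (hN₄ N (by omega))
    have h5 : |cntc (Hw H₀ w) c R - area (Hw H₀ w) * R ^ 2 - sqrt R * Mx (Hw H₀ w) (2 ^ n0) R c| ≤
        ε * q + ε * q + C * q * SS (R + d) + C * q * SS (R + -d) := by
      linarith
    have hp1 : ∀ R', (C * q * SS R') ^ (2 * J) ≤ K₃ * R0 ^ J * TT R' := by
      intro R'
      calc (C * q * SS R') ^ (2 * J) = (C * q) ^ (2 * J) * SS R' ^ (2 * J) := mul_pow _ _ _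
        _ ≤ (C * q) ^ (2 * J) * (Z ^ (2 * J) * TT R') := mul_le_mul_of_nonneg_left (hSST R') (by positivity)
        _ = K₃ * R0 ^ J * TT R' := by
          rw [hK₃, ← hqJ, mul_pow, mul_pow]
          ring
    calc |cntc (Hw H₀ w) c R - area (Hw H₀ w) * R ^ 2 - sqrt R * Mx (Hw H₀ w) (2 ^ n0) R c| ^ (2 * J)
        ≤ (ε * q + ε * q + C * q * SS (R + d) + C * q * SS (R + -d)) ^ (2 * J) :=
          pow_le_pow_left₀ (abs_nonneg _) h5 _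
      _ ≤ 4 ^ (2 * J) * ((ε * q) ^ (2 * J) + (ε * q) ^ (2 * J) + (C * q * SS (R + d)) ^ (2 * J) +
          (C * q * SS (R + -d)) ^ (2 * J)) :=
          four_pow (by positivity) (by positivity) (mul_nonneg (by positivity) (hSS0 _)) (mul_nonneg (by positivity) (hSS0 _)) _
      _ ≤ V R := by
        rw [hV]
        refine mul_le_mul_of_nonneg_left ?_ (by positivity)
        have g1 : (ε * q) ^ (2 * J) = ε ^ (2 * J) * R0 ^ J := by rw [mul_pow, hqJ]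
        have g3 := hp1 (R + d)
        have g4 := hp1 (R + -d)
        linarith
  · intro R
    rw [hV]
    have g3 := hTT0 (R + d)
    have g4 := hTT0 (R + -d)
    positivity
  · have g1 : ∫ R in Icc R0 (2 * R0), TT (R + d) ≤ 2 * nT * 8 ^ J * A * g * R0 :=
      (shift_le hTT0 hTTi (by linarith) (by linarith)).trans hTTint
    have g2 : ∫ R in Icc R0 (2 * R0), TT (R + -d) ≤ 2 * nT * 8 ^ J * A * g * R0 :=
      (shift_le hTT0 hTTi (by linarith) (by linarith)).trans hTTint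
    have g3 : ∀ c : ℝ, ∫ _ in Icc R0 (2 * R0), c = c * R0 := by
      intro c
      rw [setIntegral_const, Real.volume_real_Icc_of_le (by linarith), smul_eq_mul]
      ring
    have i2 : IntegrableOn (fun R => K₃ * R0 ^ J * TT (R + d)) (Icc R0 (2 * R0)) := hVi1.const_mul _
    have i3 : IntegrableOn (fun R => K₃ * R0 ^ J * TT (R + -d)) (Icc R0 (2 * R0)) := hVi2.const_mul _
    have i4 : IntegrableOn (fun R => ε ^ (2 * J) * R0 ^ J + ε ^ (2 * J) * R0 ^ J + K₃ * R0 ^ J * TT (R + d)) (Icc R0 (2 * R0)) :=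
      (hci (ε ^ (2 * J) * R0 ^ J + ε ^ (2 * J) * R0 ^ J)).add i2
    have e4 : ∫ R in Icc R0 (2 * R0), V R = F * (ε ^ (2 * J) * R0 ^ J * R0 + ε ^ (2 * J) * R0 ^ J * R0 +
        K₃ * R0 ^ J * (∫ R in Icc R0 (2 * R0), TT (R + d)) + K₃ * R0 ^ J * ∫ R in Icc R0 (2 * R0), TT (R + -d)) := by
      rw [hV, integral_const_mul]
      congr 1
      rw [integral_add i4 i3, integral_add (hci (ε ^ (2 * J) * R0 ^ J + ε ^ (2 * J) * R0 ^ J)) i2, g3, integral_const_mul, integral_const_mul]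
      ring
    rw [e4, pow_succ]
    have hRJ : 0 ≤ K₃ * R0 ^ J := by positivity
    have g4 := mul_le_mul_of_nonneg_left g1 hRJ
    have g5 := mul_le_mul_of_nonneg_left g2 hRJ
    have hRJ1 : 0 ≤ R0 ^ J * R0 := by positivity
    calc F * (ε ^ (2 * J) * R0 ^ J * R0 + ε ^ (2 * J) * R0 ^ J * R0 + K₃ * R0 ^ J * (∫ R in Icc R0 (2 * R0), TT (R + d)) +
          K₃ * R0 ^ J * ∫ R in Icc R0 (2 * R0), TT (R + -d))
        ≤ F * (ε ^ (2 * J) * R0 ^ J * R0 + ε ^ (2 * J) * R0 ^ J * R0 + K₃ * R0 ^ J * (2 * nT * 8 ^ J * A * g * R0) +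
          K₃ * R0 ^ J * (2 * nT * 8 ^ J * A * g * R0)) := mul_le_mul_of_nonneg_left (by linarith) hF0.le
      _ = (F * (2 * ε ^ (2 * J)) + P * g) * (R0 ^ J * R0) := by
        rw [hP]
        ring
      _ ≤ (η / 2 + η / 2) * (R0 ^ J * R0) := mul_le_mul_of_nonneg_right (add_le_add hεJ hPg) hRJ1
      _ = η * (R0 ^ J * R0) := by ring

/-- C2: hypotheses exactly those of `mom_blocks`, besides C1 (`hlow` is the statement of `dil_low`) -/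
theorem sum_tail3_of
    (hlow : ∀ {H : ℝ → ℝ}, IsSupp H → ∀ {τ e2 : ℝ}, 1 / 2 < τ → τ < 1 → 0 < e2 →
      ∃ m : ℝ, 0 < m ∧ ∀ (n0 : ℕ) (ε : ℝ), 0 < ε → ∃ R₁ : ℝ, 1 ≤ R₁ ∧ ∀ R₀ : ℝ, R₁ ≤ R₀ → m * R₀ ^ (-τ) ≤ R₀ / 2 ∧
        ∀ n1 : ℕ, n0 ≤ n1 → R₀ ^ (τ + e2) ≤ 2 ^ n1 →
        ∀ B : ℕ → ℝ → ℝ, (∀ n, n0 ≤ n → n < n1 → ∀ r ∈ Icc (R₀ / 2) (4 * R₀), 0 ≤ B n r ∧
          ∀ c' : ℝ × ℝ, ‖∑ k ∈ sqa (2 ^ n), ft (fun θ => r * H θ) k * ee (dt k c')‖ ≤ B n r) →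
        ∀ R ∈ Icc R₀ (2 * R₀), ∀ c : ℝ × ℝ,
          |cntc H c R - area H * R ^ 2 - sqrt R * Mx H (2 ^ n0) R c| ≤ ε * sqrt R₀ +
            ∑ n ∈ Finset.Ico n0 n1, (B n (R + m * R₀ ^ (-τ)) + B n (R - m * R₀ ^ (-τ))))
    {L : ℕ} {H₀ : ℝ → ℝ} (h0 : ContDiff ℝ 2 H₀) (hp : Function.Periodic H₀ (2 * π)) {J : ℕ} (hJ : 1 ≤ J) {e2 u A : ℝ}
    (he2 : 0 < e2) (he2' : e2 ≤ 1 / 4) (hu : 0 < u) (hu1 : u ≤ 1) (hA : 0 ≤ A) {nT : ℕ} {C : ℝ} (hC : 0 ≤ C)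
    (b : ℕ → Fin nT → ℝ → ℤ × ℤ → ℂ) (hb : ∀ n i α k, ‖b n i α k‖ ≤ 1) (hbc : ∀ n i k, Continuous (fun α => b n i α k))
    (w : (Fin L → ℝ) × (Fin L → ℝ)) (hw : ∀ θ, 0 < Hw H₀ w θ + deriv (deriv (Hw H₀ w)) θ)
    (hty : ∀ (n : ℕ) (p : ℝ × ℝ) (R₀ R : ℝ), 1 ≤ R₀ →
        R ∈ Icc (R₀ / 2) (4 * R₀) → IsSupp (fun θ => R * (Hw H₀ w θ - (p.1 * cos θ + p.2 * sin θ))) → ∀ c : ℝ × ℝ, ∃ c' : ℝ × ℝ,
          ‖∑ k ∈ sqa (2 ^ n), ft (fun θ => R * (Hw H₀ w θ - (p.1 * cos θ + p.2 * sin θ))) k * ee (dt k c)‖ ≤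
            C * R₀ ^ (1 / 2 : ℝ) * ((2 : ℝ) ^ n) ^ (-(3 / 2) : ℝ) * (∑ i, ∑ r ∈ Finset.range 2,
              ∫ α in Icc (-π) π ∩ {α | 1 / 2 ≤ |cos α|}, k0 ((R₀ * 2 ^ n) ^ (-(1 / 2) : ℝ)) α *
                ‖Sc (Hw H₀ w) (blk (n + r)) (b n i α) R α c'‖) + C)
    {N₁ : ℕ} (hW : ∀ N : ℕ, N₁ ≤ N → ∀ n : ℕ, ∀ i, ∀ r < 2, (2 : ℝ) ^ (n + r) ≤ ((2 : ℝ) ^ N) ^ (1 / 2 + e2) →
      ∃ W : ℝ → ℝ, Continuous W ∧ (∀ R, 0 ≤ W R) ∧ (∀ R ∈ Icc ((2 : ℝ) ^ N / 2) (4 * 2 ^ N), ∀ c : ℝ × ℝ,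
        (∫ α in gd1, k0 (((2 : ℝ) ^ N * 2 ^ n) ^ (-(1 / 2) : ℝ)) α * ‖Sc (Hw H₀ w) (blk (n + r)) (b n i α) R α c‖) ^ (2 * J) ≤ W R) ∧
        ∫ R in Icc ((2 : ℝ) ^ N / 2) (4 * 2 ^ N), W R ≤ A * 2 ^ N * ((2 : ℝ) ^ (n + r)) ^ (3 * J - u : ℝ)) :
    ∀ η : ℝ, 0 < η → ∃ (n0 : ℕ) (X₀ : ℝ), 1 ≤ n0 ∧ 1 ≤ X₀ ∧ ∀ X : ℝ, X₀ ≤ X → ∀ c : ℝ × ℝ,
      ∫ R in Icc X (2 * X), |cntc (Hw H₀ w) c R - area (Hw H₀ w) * R ^ 2 - sqrt R * Pool.Agent.Helper93.EX.Mx (Hw H₀ w) (2 ^ n0) R c| ^ (2 * J) ≤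
        η * X ^ (J + 1) := by
  intro η hη
  have hη' : 0 < η / (1 + 2 ^ (J + 1)) := by positivity
  obtain ⟨n0, N₂, h00, h⟩ := core_tail1 h0 hp hJ he2 he2' hu hu1 hA hC hlow b w
    hw hty (N₁ := N₁) (by
      intro N hN n i r hr hnr
      obtain ⟨W, h1, h2, h3, h4⟩ := hW N hN n i r hr hnr
      exact ⟨W, h1.measurable, h1.continuousOn.integrableOn_compact isCompact_Icc, h2, h3, h4⟩) hη'
  refine ⟨n0, 2 ^ N₂, h00, one_le_pow₀ (by norm_num), fun X hX c => ?_⟩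
  exact Pool.Agent.Helper11.AM.int_of_dyadic (fun R c => |cntc (Hw H₀ w) c R - area (Hw H₀ w) * R ^ 2 - sqrt R * Mx (Hw H₀ w) (2 ^ n0) R c| ^ (2 * J))
    (fun R c => by positivity) hη h X hX c

end Pool.Agent.Helper92.LW
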