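import Pool.Agent.Helper92.LW.Osc
import Pool.Agent.Helper92.LW.Tail2
import Pool.Agent.Helper92.LW.Main
import Pool.Agent.Helper90.AM.DilLow
import Pool.Agent.Helper14.AM.Res

/-!
# LW: the limit law is not degenerate
-/

open MeasureTheory Real Set Filter Topology unitInterval

set_option autoImplicit false

namespace Pool.Agent.Helper92.LW

open Pool.Agent.Helper22.AE
open Pool.Agent.Helper22.AC (cntc)
open Pool.Agent.Helper22.AM (Res)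
open Pool.Agent.Helper93.EX (Mx)

/-- the second moment at the centre `0` is bounded below -/
def ND (H : ℝ → ℝ) : Prop :=
  ∃ n X₀ : ℕ, ∀ X : ℚ, (X₀ : ℚ) + 1 ≤ X →
    1 / ((n : ℝ) + 1) ≤ (X : ℝ)⁻¹ * ∫ R in Icc (X : ℝ) (2 * X), ((cntc H (((0 : ℚ) : ℝ), ((0 : ℚ) : ℝ)) R - area H * R ^ 2) / sqrt R) ^ 2

theorem nd_of {H : ℝ → ℝ} (h2 : ContDiff ℝ 2 H) (hp : Function.Periodic H (2 * π)) (hr : ∀ θ, 0 < H θ + deriv (deriv H) θ) (hres : Res H)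
    {J : ℕ} (hJ : 1 ≤ J)
    (htail : ∀ η : ℝ, 0 < η → ∃ (n0 : ℕ) (X₀ : ℝ), 1 ≤ n0 ∧ 1 ≤ X₀ ∧ ∀ X : ℝ, X₀ ≤ X → ∀ c : ℝ × ℝ,
      ∫ R in Icc X (2 * X), |cntc H c R - area H * R ^ 2 - sqrt R * Mx H (2 ^ n0) R c| ^ (2 * J) ≤ η * X ^ (J + 1)) :
    ND H := by
  have ha := az_pos hr
  have hcn := h2.continuous
  set a : ℝ := az H with haz
  set d : ℝ := a / 8 with hd
  have hd0 : 0 < d := by positivity
  obtain ⟨n0, X₁, hn0, hX₁, h1⟩ := htail (d ^ (2 * J)) (by positivity)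
  have hN : 2 ≤ 2 ^ n0 := by
    calc 2 = 2 ^ 1 := (pow_one 2).symm
      _ ≤ 2 ^ n0 := Nat.pow_le_pow_right (by norm_num) hn0
  obtain ⟨X₂, hX₂, h3⟩ := mx_lower h2 hp hr hres hN
  obtain ⟨X₀, hX₀⟩ := exists_nat_ge (max X₁ X₂)
  obtain ⟨n, hn⟩ := exists_nat_one_div_lt (show 0 < a ^ 2 / 16 by positivity)
  refine ⟨n, X₀, fun X hX => ?_⟩
  have hXr : (X₀ : ℝ) + 1 ≤ (X : ℝ) := by exact_mod_cast hX
  have hXa : X₁ ≤ (X : ℝ) := by have := le_max_left X₁ X₂; linarith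
  have hXb : X₂ ≤ (X : ℝ) := by have := le_max_right X₁ X₂; linarith
  have hX1 : (1 : ℝ) ≤ X := hX₁.trans hXa
  have e0 : (((0 : ℚ) : ℝ), ((0 : ℚ) : ℝ)) = (0 : ℝ × ℝ) := by
    rw [Rat.cast_zero]
    rfl
  rw [e0]
  refine hn.le.trans ?_
  have bu := u_bm hcn hp (0 : ℝ × ℝ) hX1
  have bv : BM (X : ℝ) (fun R => Mx H (2 ^ n0) R 0) := BM.cont (Mx_cont H _ 0).continuousOn
  have m1 := tail_mean hcn hp (0 : ℝ × ℝ) hX1 (2 ^ n0) J (h1 X hXa 0)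
  have m2 := h3 X hXb
  -- `|v| ≤ d + |u - v|^(2J) / d^(2J-1) + s/2 + u²/(2s)`, `s = a/4`
  have h4 := mean3 hX1 bv.abs (((bu.sub bv).abs).pow (2 * J)) (bu.pow 2) (a := d + a / 8) (b := (d ^ (2 * J - 1))⁻¹) (c := 2 / a)
    (e1 := d ^ (2 * J)) (e2 := (X : ℝ)⁻¹ * ∫ R in Icc (X : ℝ) (2 * X), ((cntc H 0 R - area H * R ^ 2) / sqrt R) ^ 2)
    (by positivity) (by positivity) (fun R _ => by
      set y := (cntc H 0 R - area H * R ^ 2) / sqrt R with hy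
      set z := Mx H (2 ^ n0) R 0 with hz
      have g1 : |z| ≤ |y| + |y - z| := by
        have := abs_sub_abs_le_abs_sub z y
        rw [abs_sub_comm] at this
        linarith
      have g2 : |y| ≤ a / 8 + 2 / a * y ^ 2 := by
        have h5 : 0 ≤ (|y| - a / 4) ^ 2 := sq_nonneg _
        have h6 : y ^ 2 = |y| ^ 2 := (sq_abs y).symm
        rw [h6]
        have h7 : 2 / a * |y| ^ 2 - |y| + a / 8 = 2 / a * (|y| - a / 4) ^ 2 := by
          field_simp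
          ring
        have h8 : 0 ≤ 2 / a * (|y| - a / 4) ^ 2 := by positivity
        linarith
      have g3 : |y - z| ≤ d + (d ^ (2 * J - 1))⁻¹ * |y - z| ^ (2 * J) := by
        rcases le_total |y - z| d with h | h
        · have : 0 ≤ (d ^ (2 * J - 1))⁻¹ * |y - z| ^ (2 * J) := by positivity
          linarith
        · have e : |y - z| ^ (2 * J) = |y - z| * |y - z| ^ (2 * J - 1) := by
            rw [← pow_succ']
            congr 1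
            omega
          rw [e]
          have h5 : d ^ (2 * J - 1) ≤ |y - z| ^ (2 * J - 1) := pow_le_pow_left₀ hd0.le h _
          have h6 : |y - z| ≤ (d ^ (2 * J - 1))⁻¹ * (|y - z| * |y - z| ^ (2 * J - 1)) := by
            rw [← mul_assoc, mul_comm (d ^ (2 * J - 1))⁻¹, mul_assoc]
            refine le_mul_of_one_le_right (abs_nonneg _) ?_
            rw [inv_mul_eq_div, one_le_div (by positivity)]
            exact h5
          linarith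
      linarith) m1 le_rfl
  have e1 : (d ^ (2 * J - 1))⁻¹ * d ^ (2 * J) = d := by
    have e : d ^ (2 * J) = d ^ (2 * J - 1) * d := by
      rw [← pow_succ]
      congr 1
      omega
    rw [e, ← mul_assoc, inv_mul_cancel₀ (by positivity), one_mul]
  rw [e1] at h4
  have h5 := m2.trans h4
  set M : ℝ := (X : ℝ)⁻¹ * ∫ R in Icc (X : ℝ) (2 * X), ((cntc H 0 R - area H * R ^ 2) / sqrt R) ^ 2 with hM
  have h6 : a / 8 ≤ 2 / a * M := by
    rw [hd] at h5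
    linarith
  calc a ^ 2 / 16 = a / 2 * (a / 8) := by ring
    _ ≤ a / 2 * (2 / a * M) := mul_le_mul_of_nonneg_left h6 (by positivity)
    _ = M := by
        field_simp

theorem fin_nd : ∃ L₀ : ℕ, ∀ {L : ℕ}, L₀ ≤ L → ∀ {H₀ : ℝ → ℝ}, ContDiff ℝ 2 H₀ → Function.Periodic H₀ (2 * π) →
    ∀ᵐ w : (Fin L → ℝ) × (Fin L → ℝ), (∀ θ, 0 < Hw H₀ w θ + deriv (deriv (Hw H₀ w)) θ) → ND (Hw H₀ w) := by
  obtain ⟨L₀, hall⟩ := Pool.Agent.Helper60.MM.all_W (J := 3) le_rfl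
  refine ⟨L₀ + 2, fun {L} hL {H₀} h0 hp => ?_⟩
  apply (vol_ac L).ae_le
  have hres := Pool.Agent.Helper14.AM.res_ae (L := L) (by omega) H₀
  have hmain : ∀ Bd : ℕ, ∀ᵐ w ∂(gm L), ‖w‖ ≤ Bd → (∀ θ, 0 < Hw H₀ w θ + deriv (deriv (Hw H₀ w)) θ) → ND (Hw H₀ w) := by
    intro Bd
    obtain ⟨nT, Ct, hCt, hty⟩ := Pool.Agent.Helper85.AD.types2 L h0 hp (Bd : ℝ)
    choose b hbc hb1 hbt using hty
    obtain ⟨e2, A, he2, he24, hA, hae⟩ := hall L (by omega) h0 hp (Bd : ℝ) b hbc hb1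
    filter_upwards [hae, hres] with w hw hr hwB hrho
    obtain ⟨N₁, hN₁⟩ := hw hwB
    exact nd_of (Hw_smooth h0 w) (Hw_per hp w) hrho hr (J := 3) (by norm_num)
      (sum_tail3_of Pool.Agent.Helper90.AM.dil_low h0 hp (by norm_num) he2 he24
        (by norm_num : (0 : ℝ) < 1 / 40) (by norm_num) hA hCt b hb1 hbc w hrho (hbt · w hwB) hN₁)
  have hall' := ae_all_iff.2 hmain
  filter_upwards [hall'] with w hw hS
  exact hw ⌈‖w‖⌉₊ (Nat.le_ceil _) hS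

/-- from the finite theorem to the series, for any property with a measurable set of series -/
theorem ser_gen {Q : (ℝ → ℝ) → Prop}
    (fin : ∃ L₀ : ℕ, ∀ {L : ℕ}, L₀ ≤ L → ∀ {H₀ : ℝ → ℝ}, ContDiff ℝ 2 H₀ → Function.Periodic H₀ (2 * π) →
      ∀ᵐ w : (Fin L → ℝ) × (Fin L → ℝ), (∀ θ, 0 < Hw H₀ w θ + deriv (deriv (Hw H₀ w)) θ) → Q (Hw H₀ w))
    {H₀ : ℝ → ℝ} (h0 : ContDiff ℝ 2 H₀) (hp : Function.Periodic H₀ (2 * π)) {s : ℕ → ℝ}
    (hs : Summable (fun l : ℕ => (l : ℝ) ^ 2 * |s l|)) (hs0 : ∀ l, s l ≠ 0)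
    (meas : MeasurableSet {x : ℕ → I × I | (∀ θ, 0 < Hx H₀ s x θ + deriv (deriv (Hx H₀ s x)) θ) → Q (Hx H₀ s x)}) :
    ∀ᵐ x ∂(Measure.infinitePi fun _ : ℕ => (volume : Measure (I × I))),
      (∀ θ, 0 < Hx H₀ s x θ + deriv (deriv (Hx H₀ s x)) θ) → Q (Hx H₀ s x) := by
  obtain ⟨L, hL⟩ := fin
  refine ae_cmb L meas ?_
  intro t
  obtain ⟨H₁, h1, h1p, hH⟩ := Hx_cmb h0 hp hs L t
  have hm := hL (L := L) le_rfl h1 h1p
  have hh := head_ae (s := fun l : Fin L => s l) (fun l => hs0 l) hm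
  filter_upwards [hh] with q hq
  show (∀ θ, 0 < Hx H₀ s (cmb L q t) θ + deriv (deriv (Hx H₀ s (cmb L q t))) θ) → _
  rw [hH q]
  exact hq

theorem nd_meas {H₀ : ℝ → ℝ} (h0 : ContDiff ℝ 2 H₀) (hp : Function.Periodic H₀ (2 * π)) {s : ℕ → ℝ}
    (hs : Summable (fun l : ℕ => (l : ℝ) ^ 2 * |s l|)) :
    MeasurableSet {x : ℕ → I × I | (∀ θ, 0 < Hx H₀ s x θ + deriv (deriv (Hx H₀ s x)) θ) → ND (Hx H₀ s x)} := by
  have hS := Pool.Agent.Helper22.AD.rho_meas h0 hp hs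
  have hB : MeasurableSet {x : ℕ → I × I | ND (Hx H₀ s x)} := by
    have hset : {x : ℕ → I × I | ND (Hx H₀ s x)} = ⋃ n : ℕ, ⋃ X₀ : ℕ, ⋂ X : ℚ, ⋂ _ : (X₀ : ℚ) + 1 ≤ X, {x : ℕ → I × I |
        1 / ((n : ℝ) + 1) ≤ (X : ℝ)⁻¹ * ∫ R in Icc (X : ℝ) (2 * X),
          ((cntc (Hx H₀ s x) (((0 : ℚ) : ℝ), ((0 : ℚ) : ℝ)) R - area (Hx H₀ s x) * R ^ 2) / sqrt R) ^ 2} := by
      ext x
      simp only [ND, mem_ofPred_eq, mem_iUnion, mem_iInter]
    rw [hset]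
    refine MeasurableSet.iUnion fun n => MeasurableSet.iUnion fun X₀ => MeasurableSet.iInter fun X => MeasurableSet.iInter fun hX => ?_
    have h1 : (1 : ℝ) ≤ (X : ℝ) := by
      have h2 : (0 : ℚ) ≤ (X₀ : ℚ) := Nat.cast_nonneg X₀
      have h3 : (1 : ℚ) ≤ X := by linarith
      exact_mod_cast h3
    exact measurableSet_le measurable_const ((Pool.Agent.Helper40.LW.lim_measF h0 hp hs _ h1 (continuous_pow 2)).const_mul _)
  have hset : {x : ℕ → I × I | (∀ θ, 0 < Hx H₀ s x θ + deriv (deriv (Hx H₀ s x)) θ) → ND (Hx H₀ s x)} =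
      {x : ℕ → I × I | ∀ θ, 0 < Hx H₀ s x θ + deriv (deriv (Hx H₀ s x)) θ}ᶜ ∪ {x : ℕ → I × I | ND (Hx H₀ s x)} := by
    ext x
    simp only [mem_ofPred_eq, mem_union, mem_compl_iff]
    tauto
  rw [hset]
  exact hS.compl.union hB

/-- everything -/
def PM2 (H : ℝ → ℝ) : Prop := PM H ∧ ND H

theorem main_ser_PM2 {H₀ : ℝ → ℝ} (h0 : ContDiff ℝ 2 H₀) (hp : Function.Periodic H₀ (2 * π)) {s : ℕ → ℝ}
    (hs : Summable (fun l : ℕ => (l : ℝ) ^ 2 * |s l|)) (hs0 : ∀ l, s l ≠ 0) :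
    ∀ᵐ x ∂(Measure.infinitePi fun _ : ℕ => (volume : Measure (I × I))),
      (∀ θ, 0 < Hx H₀ s x θ + deriv (deriv (Hx H₀ s x)) θ) → PM2 (Hx H₀ s x) := by
  filter_upwards [main_ser_PM h0 hp hs hs0, ser_gen fin_nd h0 hp hs hs0 (nd_meas h0 hp hs)] with x h1 h2
  exact fun hov => ⟨h1 hov, h2 hov⟩

section

open Pool.Agent.Helper92.AD (IsPerI)
open Pool.Agent.Helper92.MMP

variable {k : ℕ∞} {V : Type} [TopologicalSpace V] {val : V → ℝ → ℝ} [MeasurableSpace V] [BorelSpace V]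

theorem nd_measV (h : IsPerI k val) (hk : 2 ≤ k) :
    MeasurableSet {H : V | (∀ t, 0 < val H t + deriv (deriv (val H)) t) ∧ ¬ ND (val H)} := by
  have hB : MeasurableSet {H : V | ND (val H)} := by
    have hset : {H : V | ND (val H)} = ⋃ n : ℕ, ⋃ X₀ : ℕ, ⋂ X : ℚ, ⋂ _ : (X₀ : ℚ) + 1 ≤ X, {H : V |
        1 / ((n : ℝ) + 1) ≤ (X : ℝ)⁻¹ * ∫ R in Icc (X : ℝ) (2 * X),
          ((cntc (val H) (((0 : ℚ) : ℝ), ((0 : ℚ) : ℝ)) R - area (val H) * R ^ 2) / sqrt R) ^ 2} := by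
      ext x
      simp only [ND, mem_ofPred_eq, mem_iUnion, mem_iInter]
    rw [hset]
    refine MeasurableSet.iUnion fun n => MeasurableSet.iUnion fun X₀ => MeasurableSet.iInter fun X => MeasurableSet.iInter fun hX => ?_
    exact measurableSet_le measurable_const ((int_measF h _ _ (continuous_pow 2)).const_mul _)
  exact (pos_meas h hk).inter hB.compl

theorem prev_PM2 (hk : 2 ≤ k) (h : IsPerI k val) :
    ∃ B : Set V, (∀ H, ¬ ((∀ t, 0 < val H t + deriv (deriv (val H)) t) → PM2 (val H)) → H ∈ B) ∧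
      MeasurableSet B ∧ ∃ μ : Measure V, IsProbabilityMeasure μ ∧ (∃ K : Set V, IsCompact K ∧ μ Kᶜ = 0) ∧
        ∀ v : V, μ {w | ∃ u ∈ B, ∀ t, val u t = val w t + val v t} = 0 :=
  prev_gen (P := PM2) (fun {_} h0 hp {_} hs hl => main_ser_PM2 h0 hp hs hl) hk h
    (and_meas92 (and_meas92 (mom_meas92 (fun h2 hp hr => Pool.Agent.Helper60.MM.mom_rat h2 hp hr) h hk)
      (limF_meas (fun {_} hH hp hr {_} hφ => Pool.Agent.Helper43.LW.rat_limF hH hp hr hφ) h hk)) (nd_measV h hk))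

end

end Pool.Agent.Helper92.LW
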