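import Pool.Agent.Helper3.AM.MxMean
import Pool.Agent.Helper92.LW.Tools
import Pool.Agent.Helper11.AD.Small

/-!
# LW: the main sum is not small in the mean: the coefficient of one frequency
-/

open MeasureTheory Real Set Filter Topology

set_option autoImplicit false

namespace Pool.Agent.Helper92.LW

open Pool.Agent.Helper22.AE
open Pool.Agent.Helper22.AM (Res)
open Pool.Agent.Helper93.EX (Mx ak prim sn fJ)
open Pool.Agent.Helper3.AM

/-- the frequency vector `(1, 0)` -/
def kz : ℤ × ℤ := (1, 0)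

/-- the index of its first harmonic -/
def vz : (ℤ × ℤ) × ℕ × Bool := (kz, 0, true)

theorem nk_kz : nk kz = 1 := by
  unfold nk cz kz
  have : (⟨((1 : ℤ) : ℝ), ((0 : ℤ) : ℝ)⟩ : ℂ) = 1 := by
    apply Complex.ext <;> simp
  rw [this, norm_one]

theorem tk_kz : tk kz = 0 := by
  unfold tk cz kz
  have : (⟨((1 : ℤ) : ℝ), ((0 : ℤ) : ℝ)⟩ : ℂ) = 1 := by
    apply Complex.ext <;> simp
  rw [this, Complex.arg_one]

theorem nk_neg : nk (-1, 0) = 1 := by
  unfold nk cz
  have : (⟨((-1 : ℤ) : ℝ), ((0 : ℤ) : ℝ)⟩ : ℂ) = -1 := by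
    apply Complex.ext <;> simp
  rw [this, norm_neg, norm_one]

theorem tk_neg : tk (-1, 0) = π := by
  unfold tk cz
  have : (⟨((-1 : ℤ) : ℝ), ((0 : ℤ) : ℝ)⟩ : ℂ) = -1 := by
    apply Complex.ext <;> simp
  rw [this, Complex.arg_neg_one]

/-- the width is positive -/
theorem width_pos {H : ℝ → ℝ} (h2 : ContDiff ℝ 2 H) (hp : Function.Periodic H (2 * π)) (hr : ∀ θ, 0 < H θ + deriv (deriv H) θ) :
    0 < H 0 + H π := by
  obtain ⟨p, hv⟩ := Pool.Agent.Helper11.AD.exists_inner h2 hp hr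
  have h1 := hv.pos 0
  have h3 := hv.pos π
  simp only [cos_zero, sin_zero, cos_pi, sin_pi, mul_one, mul_zero, add_zero, mul_neg] at h1 h3
  linarith

/-- only one term of the main sum has the frequency `H 0` -/
theorem freq_uniq {H : ℝ → ℝ} (hres : Res H) (hw : 0 < H 0 + H π) (v : (ℤ × ℤ) × ℕ × Bool)
    (hv : (ss v : ℝ) * (nk v.1 * H (tk v.1)) - H 0 = 0) : v = vz := by
  have h := hres 2 ![ss v, -1] ![v.1, kz] (by
    rw [Fin.sum_univ_two]
    simp only [Matrix.cons_val_zero, Matrix.cons_val_one]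
    rw [nk_kz, tk_kz]
    push_cast
    linarith)
  rw [Fin.sum_univ_two] at h
  simp only [Matrix.cons_val_zero, Matrix.cons_val_one] at h
  have h1 : ss v * v.1.1 = 1 := by
    have := congrArg Prod.fst h
    simp [kz] at this
    linarith
  have h2 : ss v * v.1.2 = 0 := by
    have := congrArg Prod.snd h
    simpa [kz] using this
  obtain ⟨⟨k1, k2⟩, j, b⟩ := v
  rcases Int.mul_eq_one_iff_eq_one_or_neg_one.1 h1 with ⟨h3, h4⟩ | ⟨h3, h4⟩
  · rw [h3, one_mul] at h2
    cases b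
    · simp only [ss, Bool.false_eq_true, if_false] at h3
      push_cast at h3
      have : (0 : ℤ) ≤ j := Int.natCast_nonneg _
      omega
    · simp only [ss, if_true] at h3
      push_cast at h3
      have hj : j = 0 := by omega
      simp only at h4 h2
      subst h4 h2 hj
      rfl
  · exfalso
    rw [h3] at h2
    have h5 : k2 = 0 := by
      simp only at h2
      omega
    simp only at h4
    subst h4 h5
    rw [h3, nk_neg, tk_neg] at hv
    push_cast at hv
    linarith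

/-- the frequency relative to `H 0` -/
noncomputable def wz (H : ℝ → ℝ) (v : (ℤ × ℤ) × ℕ × Bool) : ℝ := (ss v : ℝ) * (nk v.1 * H (tk v.1)) - H 0

theorem Mx_tw (H : ℝ → ℝ) (N : ℕ) (R : ℝ) :
    ((Mx H N R 0 : ℝ) : ℂ) * Complex.exp ((2 * π * -(H 0) : ℝ) * Complex.I * R) =
      ∑ v ∈ TT N, aa H N v * Complex.exp ((2 * π * wz H v : ℝ) * Complex.I * R) := by
  rw [Mx_eq, Finset.sum_mul]
  refine Finset.sum_congr rfl fun v _ => ?_
  rw [mul_assoc, ← Complex.exp_add]
  congr 2
  unfold wz ph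
  simp only [Prod.fst_zero, Prod.snd_zero, mul_zero, add_zero]
  push_cast
  ring

theorem vz_mem {N : ℕ} (hN : 2 ≤ N) : vz ∈ TT N := by
  unfold TT vz kz
  rw [Finset.mem_product, Finset.mem_product]
  refine ⟨?_, Finset.mem_range.2 (by simp only; omega), Finset.mem_univ _⟩
  unfold prim
  rw [Finset.mem_filter]
  refine ⟨?_, by simp, ?_⟩
  · unfold box
    simp only [Finset.mem_product, Finset.mem_Icc]
    omega
  · unfold sn
    simp only [Int.natAbs_one, Int.natAbs_zero]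
    omega

/-- the size of the coefficient -/
noncomputable def az (H : ℝ → ℝ) : ℝ := ak H kz / (2 * π)

theorem az_pos {H : ℝ → ℝ} (hr : ∀ θ, 0 < H θ + deriv (deriv H) θ) : 0 < az H := by
  unfold az ak
  rw [nk_kz, Real.one_rpow, one_mul]
  have : 0 < sqrt (rho H (tk kz)) := Real.sqrt_pos.2 (hr _)
  positivity

theorem aa_vz {H : ℝ → ℝ} (hr : ∀ θ, 0 < H θ + deriv (deriv H) θ) {N : ℕ} (hN : 2 ≤ N) : ‖aa H N vz‖ = az H := by
  have h0 := az_pos hr
  unfold aa vz
  have hs : sn kz = 1 := by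
    unfold sn kz
    simp
  have h1 : (0 : ℕ) < (N - 1) / sn kz := by
    rw [hs, Nat.div_one]
    omega
  simp only [h1, if_true]
  rw [norm_mul, Complex.norm_exp_ofReal_mul_I, mul_one, Complex.norm_real, Real.norm_eq_abs]
  have e : ak H kz * (1 / π * (((0 : ℕ) + 1 : ℕ) : ℝ) ^ (-(3 / 2) : ℝ)) / 2 = az H := by
    unfold az
    simp only [zero_add, Nat.cast_one, Real.one_rpow, mul_one]
    field_simp
  rw [e, abs_of_pos h0]

/-- L1: the main sum is not small in the mean -/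
theorem mx_lower {H : ℝ → ℝ} (h2 : ContDiff ℝ 2 H) (hp : Function.Periodic H (2 * π)) (hr : ∀ θ, 0 < H θ + deriv (deriv H) θ) (hres : Res H)
    {N : ℕ} (hN : 2 ≤ N) : ∃ X₀ : ℝ, 1 ≤ X₀ ∧ ∀ X : ℝ, X₀ ≤ X → az H / 2 ≤ X⁻¹ * ∫ R in Icc X (2 * X), |Mx H N R 0| := by
  classical
  have ha := az_pos hr
  set K : ℝ := ∑ v ∈ (TT N).erase vz, ‖aa H N v‖ * (2 / (2 * π * |wz H v|)) with hK
  have hK0 : 0 ≤ K := Finset.sum_nonneg fun v _ => by positivity
  refine ⟨max 1 (2 * K / az H), le_max_left _ _, fun X hX => ?_⟩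
  have hX1 : 1 ≤ X := (le_max_left _ _).trans hX
  have hXK : 2 * K / az H ≤ X := (le_max_right _ _).trans hX
  have hX0 : 0 < X := by linarith
  have hX2 : X ≤ 2 * X := by linarith
  have hint : ∫ R in X..(2 * X), ((Mx H N R 0 : ℝ) : ℂ) * Complex.exp ((2 * π * -(H 0) : ℝ) * Complex.I * R) =
      ∑ v ∈ TT N, aa H N v * ∫ R in X..(2 * X), Complex.exp ((2 * π * wz H v : ℝ) * Complex.I * R) := by
    simp_rw [Mx_tw]
    rw [intervalIntegral.integral_finsetSum]
    · refine Finset.sum_congr rfl fun v _ => ?_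
      rw [intervalIntegral.integral_const_mul]
    · intro v _
      apply Continuous.intervalIntegrable
      fun_prop
  rw [← Finset.add_sum_erase _ _ (vz_mem hN)] at hint
  have hw0 : wz H vz = 0 := by
    unfold wz vz
    rw [nk_kz, tk_kz]
    simp [ss]
  have e1 : ∫ R in X..(2 * X), Complex.exp ((2 * π * wz H vz : ℝ) * Complex.I * R) = (X : ℂ) := by
    rw [hw0]
    simp only [mul_zero, Complex.ofReal_zero, zero_mul, Complex.exp_zero, intervalIntegral.integral_const]
    rw [Complex.real_smul]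
    push_cast
    ring
  rw [e1] at hint
  have hb : ‖∑ v ∈ (TT N).erase vz, aa H N v * ∫ R in X..(2 * X), Complex.exp ((2 * π * wz H v : ℝ) * Complex.I * R)‖ ≤ K := by
    refine (norm_sum_le _ _).trans (Finset.sum_le_sum fun v hv => ?_)
    have hv0 : wz H v ≠ 0 := fun h0 => (Finset.mem_erase.1 hv).1 (freq_uniq hres (width_pos h2 hp hr) v h0)
    rw [norm_mul]
    exact mul_le_mul_of_nonneg_left (osc hv0) (norm_nonneg _)
  have h3 : az H * X - K ≤ ‖∫ R in X..(2 * X), ((Mx H N R 0 : ℝ) : ℂ) * Complex.exp ((2 * π * -(H 0) : ℝ) * Complex.I * R)‖ := by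
    rw [hint]
    have h4 := norm_sub_le_norm_add (aa H N vz * (X : ℂ))
      (∑ v ∈ (TT N).erase vz, aa H N v * ∫ R in X..(2 * X), Complex.exp ((2 * π * wz H v : ℝ) * Complex.I * R))
    rw [norm_mul, aa_vz hr hN, Complex.norm_real, Real.norm_eq_abs, abs_of_pos hX0] at h4
    linarith
  have h5 : ‖∫ R in X..(2 * X), ((Mx H N R 0 : ℝ) : ℂ) * Complex.exp ((2 * π * -(H 0) : ℝ) * Complex.I * R)‖ ≤
      ∫ R in Icc X (2 * X), |Mx H N R 0| := by
    rw [integral_Icc_eq_integral_Ioc, ← intervalIntegral.integral_of_le hX2]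
    refine (intervalIntegral.norm_integral_le_integral_norm hX2).trans (le_of_eq ?_)
    refine intervalIntegral.integral_congr fun R _ => ?_
    show ‖((Mx H N R 0 : ℝ) : ℂ) * Complex.exp ((2 * π * -(H 0) : ℝ) * Complex.I * R)‖ = |Mx H N R 0|
    have e : ((2 * π * -(H 0) : ℝ) : ℂ) * Complex.I * (R : ℂ) = ((2 * π * -(H 0) * R : ℝ) : ℂ) * Complex.I := by push_cast; ring
    rw [norm_mul, e, Complex.norm_exp_ofReal_mul_I, mul_one, Complex.norm_real, Real.norm_eq_abs]
  have h6 : K ≤ az H / 2 * X := by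
    have := (div_le_iff₀ ha).1 hXK
    linarith
  rw [le_inv_mul_iff₀ hX0]
  linarith

end Pool.Agent.Helper92.LW
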