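import Pool.Agent.Helper92.MM.Prev
import Pool.Agent.Helper92.LW.Defs

/-!
# LW: the convergence for the countable family of test functions is a Borel property
-/

open MeasureTheory Real Set Filter Topology

set_option autoImplicit false

namespace Pool.Agent.Helper92.LW

open Pool.Agent.Helper22.AE
open Pool.Agent.Helper22.AC (cntc)
open Pool.Agent.Helper92.AD (IsPerI)
open Pool.Agent.Helper92.MMP

theorem cut_cont (K : ℕ) : Continuous (cut K) := by
  unfold cut
  exact continuous_const.max (continuous_const.min (continuous_const.sub (continuous_abs.div_const _)))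

theorem fjk_cont (j K : ℕ) : Continuous (fjk j K) := by
  unfold fjk
  exact (continuous_pow j).mul (cut_cont K)

theorem cut_nonneg (K : ℕ) (y : ℝ) : 0 ≤ cut K y := le_max_left _ _

theorem cut_le (K : ℕ) (y : ℝ) : cut K y ≤ 1 := max_le zero_le_one (min_le_left _ _)

/-- `cut K y = 0` for `|y| ≥ 2 (K + 1)` -/
theorem cut_zero (K : ℕ) {y : ℝ} (hy : 2 * ((K : ℝ) + 1) ≤ |y|) : cut K y = 0 := by
  unfold cut
  have h1 : 2 ≤ |y| / ((K : ℝ) + 1) := by
    rw [le_div_iff₀ (by positivity)]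
    exact hy
  exact max_eq_left ((min_le_right _ _).trans (by linarith))

/-- `cut K y = 1` for `|y| ≤ K + 1` -/
theorem cut_one (K : ℕ) {y : ℝ} (hy : |y| ≤ (K : ℝ) + 1) : cut K y = 1 := by
  unfold cut
  have h1 : |y| / ((K : ℝ) + 1) ≤ 1 := by
    rw [div_le_one (by positivity)]
    exact hy
  rw [min_eq_left (by linarith), max_eq_right zero_le_one]

theorem fjk_supp (j K : ℕ) : HasCompactSupport (fjk j K) := by
  refine HasCompactSupport.intro (K := Icc (-(2 * ((K : ℝ) + 1))) (2 * ((K : ℝ) + 1))) isCompact_Icc fun y hy => ?_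
  have h1 : 2 * ((K : ℝ) + 1) ≤ |y| := by
    by_contra hcon
    exact hy (abs_le.1 (not_le.1 hcon).le)
  unfold fjk
  rw [cut_zero K h1, mul_zero]

section

variable {k : ℕ∞} {V : Type} [TopologicalSpace V] {val : V → ℝ → ℝ} [MeasurableSpace V] [BorelSpace V]

theorem int_measF (h : IsPerI k val) (c : ℝ × ℝ) (X : ℝ) {φ : ℝ → ℝ} (hφ : Continuous φ) :
    Measurable (fun H : V => ∫ R in Icc X (2 * X), φ ((cntc (val H) c R - area (val H) * R ^ 2) / sqrt R)) := by
  have h1 : Measurable (fun q : V × ℝ => φ ((cntc (val q.1) c q.2 - area (val q.1) * q.2 ^ 2) / sqrt q.2)) := by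
    refine hφ.measurable.comp (Measurable.div ?_ (Real.continuous_sqrt.measurable.comp measurable_snd))
    exact (cntc_meas92 h c).sub (((area_meas92 h).comp measurable_fst).mul (measurable_snd.pow_const 2))
  exact (h1.stronglyMeasurable.integral_prod_right' (ν := volume.restrict (Icc X (2 * X)))).measurable

/-- the convergence of the means for one test function is a Borel property -/
theorem limF_meas
    (rat : ∀ {H : ℝ → ℝ}, ContDiff ℝ 2 H → Function.Periodic H (2 * π) → (∀ θ, 0 < H θ + deriv (deriv H) θ) →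
      ∀ {φ : ℝ → ℝ}, Continuous φ → (LimF H φ ↔
      (∀ n : ℕ, ∃ X₀ : ℕ, ∀ X Y : ℚ, ((X₀ : ℚ) + 1 ≤ X) → ((X₀ : ℚ) + 1 ≤ Y) → ∀ c d : ℚ × ℚ,
      |(X : ℝ)⁻¹ * (∫ R in Icc (X : ℝ) (2 * X), φ ((cntc H ((c.1 : ℝ), (c.2 : ℝ)) R - area H * R ^ 2) / sqrt R)) -
        (Y : ℝ)⁻¹ * (∫ R in Icc (Y : ℝ) (2 * Y), φ ((cntc H ((d.1 : ℝ), (d.2 : ℝ)) R - area H * R ^ 2) / sqrt R))| ≤ 1 / ((n : ℝ) + 1))))
    (h : IsPerI k val) (hk : 2 ≤ k) :
    MeasurableSet {H : V | (∀ t, 0 < val H t + deriv (deriv (val H)) t) ∧ ¬ ∀ j K : ℕ, LimF (val H) (fjk j K)} := by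
  have e : {H : V | (∀ t, 0 < val H t + deriv (deriv (val H)) t) ∧ ¬ ∀ j K : ℕ, LimF (val H) (fjk j K)} =
      {H : V | ∀ t, 0 < val H t + deriv (deriv (val H)) t} ∩ (⋂ j : ℕ, ⋂ K : ℕ, ⋂ n : ℕ, ⋃ X₀ : ℕ, ⋂ X : ℚ, ⋂ Y : ℚ,
        ⋂ _ : (X₀ : ℚ) + 1 ≤ X, ⋂ _ : (X₀ : ℚ) + 1 ≤ Y, ⋂ c : ℚ × ℚ, ⋂ d : ℚ × ℚ,
        {H : V | |(X : ℝ)⁻¹ * (∫ R in Icc (X : ℝ) (2 * X), fjk j K ((cntc (val H) ((c.1 : ℝ), (c.2 : ℝ)) R - area (val H) * R ^ 2) / sqrt R)) -
          (Y : ℝ)⁻¹ * (∫ R in Icc (Y : ℝ) (2 * Y), fjk j K ((cntc (val H) ((d.1 : ℝ), (d.2 : ℝ)) R - area (val H) * R ^ 2) / sqrt R))| ≤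
          1 / ((n : ℝ) + 1)})ᶜ := by
    ext H
    simp only [mem_ofPred_eq, mem_inter_iff, mem_compl_iff, mem_iInter, mem_iUnion]
    refine and_congr_right fun hpos => not_congr (forall_congr' fun j => forall_congr' fun K => rat (cd2 h hk H) (h.per H) hpos (fjk_cont j K))
  rw [e]
  refine (pos_meas h hk).inter (MeasurableSet.compl ?_)
  refine MeasurableSet.iInter fun j => MeasurableSet.iInter fun K => MeasurableSet.iInter fun n => MeasurableSet.iUnion fun X₀ =>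
    MeasurableSet.iInter fun X => MeasurableSet.iInter fun Y => MeasurableSet.iInter fun _ => MeasurableSet.iInter fun _ =>
    MeasurableSet.iInter fun c => MeasurableSet.iInter fun d => measurableSet_le ?_ measurable_const
  refine continuous_abs.measurable.comp ?_
  exact ((int_measF h _ _ (fjk_cont j K)).const_mul _).sub ((int_measF h _ _ (fjk_cont j K)).const_mul _)

end

end Pool.Agent.Helper92.LW
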